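import Mathlib

set_option autoImplicit false

/-! # The Denef-Loeser function of a polynomial with simplicial Newton boundary: definitions -/

namespace Pool.Agent.helper61.DL

open Finset

/-- The smallest value of the weight `a` on the exponents of `f`. -/
noncomputable def ordW {n : ℕ} (f : MvPolynomial (Fin n) ℂ) (a : Fin n → ℕ) : ℕ :=
  sInf {N | ∃ v ∈ f.support, N = ∑ i, a i * v i}

/-- The integral points of the linear span of `S`. -/
def sat {m : ℕ} (S : Set (Fin m → ℤ)) : AddSubgroup (Fin m → ℤ) where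
  carrier := {x | ∃ k : ℤ, k ≠ 0 ∧ k • x ∈ AddSubgroup.closure S}
  zero_mem' := ⟨1, one_ne_zero, by rw [smul_zero]; exact AddSubgroup.zero_mem _⟩
  add_mem' := by
    rintro x y ⟨k, hk, hx⟩ ⟨l, hl, hy⟩
    refine ⟨k * l, mul_ne_zero hk hl, ?_⟩
    have h : (k * l) • (x + y) = l • (k • x) + k • (l • y) := by
      rw [smul_add, mul_comm k l, mul_smul, mul_comm l k, mul_smul]
    rw [h]
    exact AddSubgroup.add_mem _ (AddSubgroup.zsmul_mem _ hx l) (AddSubgroup.zsmul_mem _ hy k)
  neg_mem' := by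
    rintro x ⟨k, hk, hx⟩
    exact ⟨k, hk, by rw [smul_neg]; exact AddSubgroup.neg_mem _ hx⟩

/-- The index of the group generated by `S` in the group of the integral points of its span. -/
noncomputable def mult {m : ℕ} (S : Set (Fin m → ℤ)) : ℕ :=
  (AddSubgroup.closure S).relIndex (sat S)

/-- The normalised volume `(dim F)! Vol(F)` of a simplex with set of vertices `F`:
the index of the group generated by the differences of the vertices in the group of the
integral points of its span. -/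
noncomputable def nvol {n : ℕ} (F : Finset (Fin n →₀ ℕ)) : ℕ :=
  mult {d : Fin n → ℤ | ∃ u ∈ F, ∃ v ∈ F, d = fun i => (v i : ℤ) - (u i : ℤ)}

/-- absolute value of the determinant of a family of `M` vectors of `ℝ ^ M`
(indexed by any type with `M` elements) -/
noncomputable def adet {κ : Type} [Fintype κ] {M : ℕ} (w : κ → Fin M → ℝ) : ℝ := by
  classical
  exact if h : Fintype.card κ = M then
    |Matrix.det (Matrix.of fun i => w ((Fintype.equivFinOfCardEq h).symm i))| else 0

theorem adet_eq {κ : Type} [Fintype κ] {M : ℕ} (w : κ → Fin M → ℝ) (e : κ ≃ Fin M) :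
    adet w = |Matrix.det (Matrix.of fun i => w (e.symm i))| := by
  classical
  have h : Fintype.card κ = M := by rw [Fintype.card_congr e, Fintype.card_fin]
  rw [adet, dif_pos h]
  set e₀ := Fintype.equivFinOfCardEq h
  have h1 : (Matrix.of fun i => w (e.symm i)) =
      (Matrix.of fun i => w (e₀.symm i)).submatrix (e.symm.trans e₀) id := by
    ext i j
    simp
  rw [h1, Matrix.det_permute, abs_mul]
  have h2 : |((Equiv.Perm.sign (e.symm.trans e₀) : ℤ) : ℝ)| = 1 := by
    rcases Int.units_eq_one_or (Equiv.Perm.sign (e.symm.trans e₀)) with h | h <;> rw [h] <;> simp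
  rw [h2, one_mul]

/-- the homogenised exponent `(-h, v)` -/
def hv {n : ℕ} (h : ℝ) (v : Fin n → ℝ) : Fin (n + 1) → ℝ := Fin.cons (-h) v

section Alg

variable {n : ℕ} {ι : Type} [Fintype ι] [DecidableEq ι]

/-- the faces -/
def fcs (𝒱 : Finset (Finset ι)) : Finset (Finset ι) := 𝒱.biUnion fun Δ => Δ.powerset

/-- volume of a facet -/
noncomputable def volQ (V : ι → Fin n → ℚ) (Δ : Finset ι) : ℚ :=
  if h : Δ.card = n then |Matrix.det (fun i => V ((Finset.equivFinOfCardEq h).symm i).1)| else 1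

/-- the degree map of the star of `σ` -/
noncomputable def lamQ (V : ι → Fin n → ℚ) (𝒱 : Finset (Finset ι)) (t : Finset ι → ι → ℚ)
    (σ : Finset ι) (P : MvPolynomial ι ℚ) : ℚ :=
  ∑ Δ ∈ 𝒱 with σ ⊆ Δ, MvPolynomial.eval (t Δ) (MvPolynomial.homogeneousComponent (n - σ.card) P) /
    (volQ V Δ * ∏ v ∈ Δ \ σ, t Δ v)

/-- the vertex sum of a face -/
noncomputable def RR (V : ι → Fin n → ℚ) (𝒱 : Finset (Finset ι)) (x : Finset ι → ι → ℝ) (s : ℝ)
    (F : Finset ι) : ℝ :=
  ∑ Δ ∈ 𝒱 with F ⊆ Δ, 1 / ((volQ V Δ : ℝ) * (s + ∑ v ∈ Δ, x Δ v) * ∏ v ∈ Δ \ F, x Δ v)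

/-- the weight of a face in the Denef-Loeser formula (times `n(F)`) -/
noncomputable def wt (nn : Finset ι → ℚ) (s : ℝ) (F : Finset ι) : ℝ :=
  if F.card = 1 then 1 else (-1) ^ (F.card - 1) * (nn F : ℝ) ^ 2 * (s / (s + 1))

/-- the Denef-Loeser function as a vertex sum -/
noncomputable def ZZ (nn : Finset ι → ℚ) (V : ι → Fin n → ℚ) (𝒱 : Finset (Finset ι))
    (x : Finset ι → ι → ℝ) (s : ℝ) : ℝ :=
  ∑ F ∈ (fcs 𝒱).erase ∅, wt nn s F * RR V 𝒱 x s F

/-- Moebius transform of `n(F)^2` -/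
noncomputable def nu (nn : Finset ι → ℚ) (S : Finset ι) : ℚ :=
  ∑ F ∈ S.powerset, (-1) ^ (S.card - F.card) * nn F ^ 2

/-- the class `c` translated by `e` -/
noncomputable def cpoly (nn : Finset ι → ℚ) (𝒱 : Finset (Finset ι)) (e : ι → ℚ) :
    MvPolynomial ι ℚ :=
  ∑ S ∈ fcs 𝒱, MvPolynomial.C (nu nn S * (-1) ^ S.card) *
    (∏ v ∈ S, (MvPolynomial.C (e v) + MvPolynomial.X v)) *
    ∏ v ∈ Finset.univ \ S, (MvPolynomial.C (1 - e v) - MvPolynomial.X v)

end Alg

end Pool.Agent.helper61.DL
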