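import Mathlib
import Pool.Agent.helper61.DL.Defs

set_option autoImplicit false

/-! # The Denef-Loeser function of a polynomial with simplicial Newton boundary: definitions 2 -/

namespace Pool.Agent.helper61.DL

open Finset

/-- A simple polyhedron `{k | ∀ i, h i ≤ k ⬝ᵥ V i}` in the positive orthant with its vertices. -/
structure Poly {n : ℕ} {ι : Type} [Fintype ι] [DecidableEq ι] (V : ι → Fin n → ℝ) (h : ι → ℝ)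
    (𝒱 : Finset (Finset ι)) (kk : Finset ι → Fin n → ℝ) (dd : Finset ι → ι → Fin n → ℝ) : Prop where
  card : ∀ Δ ∈ 𝒱, Δ.card = n
  kk_le : ∀ Δ ∈ 𝒱, ∀ i, h i ≤ kk Δ ⬝ᵥ V i
  kk_eq : ∀ Δ ∈ 𝒱, ∀ i, i ∈ Δ ↔ kk Δ ⬝ᵥ V i = h i
  dual : ∀ Δ ∈ 𝒱, ∀ u ∈ Δ, ∀ v ∈ Δ, dd Δ u ⬝ᵥ V v = if u = v then 1 else 0
  act : ∀ k : Fin n → ℝ, (∀ i, h i ≤ k ⬝ᵥ V i) → ∃ Δ ∈ 𝒱, ∀ i, k ⬝ᵥ V i = h i → i ∈ Δ
  V_nonneg : ∀ i j, 0 ≤ V i j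
  conv : ∀ j, ∃ i, 0 < V i j ∧ ∀ j', j' ≠ j → V i j' = 0
  h_pos : ∀ i, 0 < h i

/-- the vertex sum with general real data -/
noncomputable def RS {n : ℕ} {ι : Type} [Fintype ι] [DecidableEq ι] (V : ι → Fin n → ℝ)
    (𝒱 : Finset (Finset ι)) (kk : Finset ι → Fin n → ℝ) (dd : Finset ι → ι → Fin n → ℝ)
    (s : ℝ) (ξ : Fin n → ℝ) (F : Finset ι) : ℝ :=
  ∑ Δ ∈ 𝒱 with F ⊆ Δ, 1 / (adet (fun v : {v // v ∈ Δ} => V v) * (s + kk Δ ⬝ᵥ ξ) *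
    ∏ v ∈ Δ \ F, dd Δ v ⬝ᵥ ξ)

/-- symbolic rays: `inl i` is `(0, e_i)`, `inr Δ` is the vertex `(1, kk Δ)` -/
noncomputable def ray {n : ℕ} {ι : Type} [DecidableEq ι] (kk : Finset ι → Fin n → ℝ) :
    Fin n ⊕ Finset ι → Fin (n + 1) → ℝ :=
  Sum.elim (fun i => Fin.cons 0 (Pi.single i 1)) (fun Δ => Fin.cons 1 (kk Δ))

/-- the facets (rational data) -/
noncomputable def facets {n : ℕ} {ι : Type} [Fintype ι] [DecidableEq ι] (V : ι → Fin n → ℚ)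
    (h : ι → ℚ) : Finset (Finset ι) := by
  classical
  exact (Finset.univ : Finset (Finset ι)).filter fun Δ => Δ.card = n ∧
    ∃ k : Fin n → ℚ, (∀ i, h i ≤ k ⬝ᵥ V i) ∧ ∀ i, i ∈ Δ ↔ k ⬝ᵥ V i = h i

/-- the class `Σ (-1)^|F| g F ∏_{v ∈ F} (β_v + X_v)` (`g F = n(F)^2`) -/
noncomputable def gpoly {ι : Type} [Fintype ι] [DecidableEq ι] (g : Finset ι → ℚ) (β : ι → ℚ) :
    MvPolynomial ι ℚ :=
  ∑ F : Finset ι, (-1) ^ F.card * MvPolynomial.C (g F) *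
    ∏ i ∈ F, (MvPolynomial.C (β i) + MvPolynomial.X i)

end Pool.Agent.helper61.DL
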