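import Mathlib
import Pool.Agent.helper61.DL.Defs2
import Pool.Agent.helper14.Newton.Defs

set_option autoImplicit false

/-! # The Denef-Loeser function of a polynomial: definitions used in the final statements -/

namespace Pool.Agent.helper61.DL

open Finset Filter Topology Pool.Agent.helper14.Newton

/-- an exponent as a real vector -/
def rv {n : ℕ} (v : Fin n →₀ ℕ) : Fin n → ℝ := fun i => (v i : ℝ)

/-- dimension of the convex hull of a set of exponents -/
noncomputable def fdim {n : ℕ} (G : Finset (Fin n →₀ ℕ)) : ℕ :=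
  Module.finrank ℝ (vectorSpan ℝ (rv '' (G : Set (Fin n →₀ ℕ))))

/-- number of integral points of `N` times the convex hull of `G` -/
noncomputable def npts {n : ℕ} (G : Finset (Fin n →₀ ℕ)) (N : ℕ) : ℕ :=
  Nat.card {x : Fin n → ℤ //
    ∃ y ∈ convexHull ℝ (rv '' (G : Set (Fin n →₀ ℕ))), ∀ i, (x i : ℝ) = N * y i}

/-- the normalised volume `d! Vol` of the convex hull of `G`, `d` its dimension: the limit of
`d!` times the number of integral points of `N` times the convex hull divided by `N ^ d` -/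
noncomputable def svol {n : ℕ} (G : Finset (Fin n →₀ ℕ)) : ℝ :=
  limUnder atTop fun N : ℕ => ((fdim G).factorial : ℝ) * npts G N / (N : ℝ) ^ fdim G

/-- the compact faces of the Newton polyhedron of `f`, as sets of exponents of `f` -/
noncomputable def faces {n : ℕ} (f : MvPolynomial (Fin n) ℂ) : Finset (Finset (Fin n →₀ ℕ)) := by
  classical
  exact f.support.powerset.filter fun G => ∃ w : Fin n → ℕ, (∀ i, 0 < w i) ∧ face f w = G

/-- `S` is a decomposition of the dual cone of the face `G`, the cone of all real `k ≥ 0` which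
are minimal on `G` among the exponents of `f`, into simplicial cones generated by vectors of
`ℕ ^ n`, of the dimension `n - dim G` of the cone and with disjoint interiors. -/
structure IsSubdivision {n : ℕ} (f : MvPolynomial (Fin n) ℂ) (G : Finset (Fin n →₀ ℕ))
    (S : Finset (Finset (Fin n → ℕ))) : Prop where
  card : ∀ δ ∈ S, δ.card + fdim G = n
  face : ∀ δ ∈ S, ∀ a ∈ δ, G ⊆ face f a
  indep : ∀ δ ∈ S, LinearIndependent ℝ (fun (a : δ) (i : Fin n) => ((a : Fin n → ℕ) i : ℝ))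
  cover : ∀ k : Fin n → ℝ, (∀ i, 0 ≤ k i) →
    (∀ v ∈ G, ∀ u ∈ f.support, ∑ i, k i * v i ≤ ∑ i, k i * u i) →
    ∃ δ ∈ S, ∃ t : (Fin n → ℕ) → ℝ, (∀ a ∈ δ, 0 ≤ t a) ∧ ∀ i, k i = ∑ a ∈ δ, t a * a i
  disj : ∀ δ ∈ S, ∀ δ' ∈ S, δ ≠ δ' → ∀ t t' : (Fin n → ℕ) → ℝ, (∀ a ∈ δ, 0 < t a) →
    (∀ a ∈ δ', 0 < t' a) → ∃ i, ∑ a ∈ δ, t a * a i ≠ ∑ a ∈ δ', t' a * a i

/-- `J_G(s) = ∑_δ mult(δ) / ∏_{a ∈ δ} (N(a) s + |a|)` -/
noncomputable def jay {n : ℕ} (f : MvPolynomial (Fin n) ℂ) (S : Finset (Finset (Fin n → ℕ))) :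
    RatFunc ℂ :=
  ∑ δ ∈ S, (mult ((fun (a : Fin n → ℕ) (i : Fin n) => (a i : ℤ)) '' (δ : Set (Fin n → ℕ))) :
      RatFunc ℂ) / ∏ a ∈ δ, ((ordW f a : RatFunc ℂ) * RatFunc.X + ((∑ i, a i : ℕ) : RatFunc ℂ))

/-- The Denef-Loeser function:
`∑_{dim G = 0} J_G(s) + s/(s+1) ∑_{dim G ≥ 1} (-1)^(dim G) (dim G)! Vol(G) J_G(s)`,
the sums are over the compact faces. -/
noncomputable def ZDL {n : ℕ} (f : MvPolynomial (Fin n) ℂ)
    (D : Finset (Fin n →₀ ℕ) → Finset (Finset (Fin n → ℕ))) : RatFunc ℂ :=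
  ∑ G ∈ faces f, (if fdim G = 0 then 1 else
    RatFunc.C ((-1) ^ fdim G * (svol G : ℂ)) * (RatFunc.X / (RatFunc.X + 1))) * jay f (D G)

end Pool.Agent.helper61.DL
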