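import Mathlib
import Pool.Agent.helper61.DL.Defs3
import Pool.Agent.helper14.NS.Crit

set_option autoImplicit false

/-! # The Denef-Loeser function: internal definitions (exponents indexed by `ι`) -/

namespace Pool.Agent.helper61.DL

open Finset Filter Topology Pool.Agent.helper14.NS

variable {n : ℕ} {ι : Type} [Fintype ι] [DecidableEq ι]

/-- the exponents with indices in `F` -/
def ex (V : ι → Fin n →₀ ℕ) (F : Finset ι) : Finset (Fin n →₀ ℕ) := F.image V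

/-- real exponent vectors -/
def rV (V : ι → Fin n →₀ ℕ) (i : ι) : Fin n → ℝ := fun j => (V i j : ℝ)

/-- the compact faces, as sets of indices -/
noncomputable def facesI (V : ι → Fin n →₀ ℕ) : Finset (Finset ι) := by
  classical
  exact Finset.univ.filter fun G => ∃ w : Fin n → ℕ, (∀ j, 0 < w j) ∧
    ∀ i, i ∈ G ↔ ∀ i', ∑ j, w j * V i j ≤ ∑ j, w j * V i' j

/-- the smallest face of the Newton boundary containing `F` -/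
noncomputable def tau (V : ι → Fin n → ℝ) (F : Finset ι) : Finset ι := by
  classical
  exact Finset.univ.filter fun u => ∀ k : Fin n → ℝ, (∀ i, 1 ≤ k ⬝ᵥ V i) →
    (∀ v ∈ F, k ⬝ᵥ V v = 1) → k ⬝ᵥ V u = 1

/-- the smallest value of the weight `a` on all exponents -/
noncomputable def ordI (V : ι → Fin n →₀ ℕ) (a : Fin n → ℕ) : ℕ :=
  sInf {N | ∃ v, N = ∑ i, a i * V v i}

/-- `S` is a decomposition of the dual cone of the face `G` -/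
structure SubI (V : ι → Fin n →₀ ℕ) (G : Finset ι) (S : Finset (Finset (Fin n → ℕ))) : Prop where
  card : ∀ δ ∈ S, δ.card + fdim (ex V G) = n
  face : ∀ δ ∈ S, ∀ a ∈ δ, ∀ v ∈ G, ∀ u, ∑ i, a i * V v i ≤ ∑ i, a i * V u i
  indep : ∀ δ ∈ S, LinearIndependent ℝ (fun (a : δ) (i : Fin n) => ((a : Fin n → ℕ) i : ℝ))
  cover : ∀ k : Fin n → ℝ, (∀ i, 0 ≤ k i) →
    (∀ v ∈ G, ∀ u, ∑ i, k i * V v i ≤ ∑ i, k i * V u i) →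
    ∃ δ ∈ S, ∃ t : (Fin n → ℕ) → ℝ, (∀ a ∈ δ, 0 ≤ t a) ∧ ∀ i, k i = ∑ a ∈ δ, t a * a i
  disj : ∀ δ ∈ S, ∀ δ' ∈ S, δ ≠ δ' → ∀ t t' : (Fin n → ℕ) → ℝ, (∀ a ∈ δ, 0 < t a) →
    (∀ a ∈ δ', 0 < t' a) → ∃ i, ∑ a ∈ δ, t a * a i ≠ ∑ a ∈ δ', t' a * a i

/-- `∑_δ mult(δ) / ∏_{a ∈ δ} (N(a) s + a ⬝ ξ)` -/
noncomputable def jayI (V : ι → Fin n →₀ ℕ) (S : Finset (Finset (Fin n → ℕ))) (s : ℝ)
    (ξ : Fin n → ℝ) : ℝ :=
  ∑ δ ∈ S, (mult ((fun (a : Fin n → ℕ) (i : Fin n) => (a i : ℤ)) '' (δ : Set (Fin n → ℕ))) : ℝ) /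
    ∏ a ∈ δ, ((ordI V a : ℝ) * s + ∑ i, a i * ξ i)

/-- A decomposition of the cone `C_F = {kt ≥ 0 | kt ⬝ hv u ≥ 0, = 0 on F}` (heights `1`) into
simplicial cones of dimension `ℓ`, with the value `R` of `∑ adet / ∏ (ray ⬝ y)`. -/
structure Dec (V : ι → Fin n → ℝ) (F : Finset ι) (s : ℝ) (ξ : Fin n → ℝ) (R : ℝ) {ℓ : ℕ}
    {β : Type} [Fintype β] (D : β → Fin ℓ → Fin (n + 1) → ℝ) : Prop where
  mem : ∀ x j u, 0 ≤ D x j ⬝ᵥ hv 1 (V u)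
  memF : ∀ x j, ∀ v ∈ F, D x j ⬝ᵥ hv 1 (V v) = 0
  nonneg : ∀ x j i, 0 ≤ D x j i
  ne : ∀ x j, D x j ≠ 0
  li : ∀ x, LinearIndependent ℝ (D x)
  cover : ∀ k : Fin (n + 1) → ℝ, (∀ u, 0 ≤ k ⬝ᵥ hv 1 (V u)) → (∀ v ∈ F, k ⬝ᵥ hv 1 (V v) = 0) →
    0 < k 0 → ∃ x, ∃ t : Fin ℓ → ℝ, (∀ j, 0 ≤ t j) ∧ k = ∑ j, t j • D x j
  disj : ∀ x x', x ≠ x' → ∀ t t' : Fin ℓ → ℝ, (∀ j, 0 < t j) → (∀ j, 0 < t' j) →
    ∑ j, t j • D x j ≠ ∑ j, t' j • D x' j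
  val : ∀ b : ι → Fin (n + 1) → ℝ,
    (∀ u ∈ F, ∀ v ∈ F, b u ⬝ᵥ hv 1 (V v) = if u = v then 1 else 0) →
    ∑ x, adet (Sum.elim (D x) (fun v : {v // v ∈ F} => b v)) /
      ∏ j, (D x j ⬝ᵥ (Fin.cons s ξ : Fin (n + 1) → ℝ)) = R

end Pool.Agent.helper61.DL
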