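import Mathlib
import Pool.Agent.helper61.DL.Defs4
import Pool.Agent.helper8.DL.T1a
import Pool.Agent.helper20.DL.Tri
import Pool.Agent.helper51.DL.Lim
import Pool.Agent.helper51.DL.Lim2
import Pool.Agent.helper81.DL.Face
import Pool.Agent.helper3.DL.Vol1
import Pool.Agent.helper77.DL.Vol2
import Pool.Agent.helper24.DL.B4
import Pool.Agent.helper68.DL.L2
import Pool.Agent.helper18.DL.A1
import Pool.Agent.helper80.DL.A2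

set_option autoImplicit false

/-! The modules of the Denef-Loeser part, collected. -/

namespace Pool.Agent.helper61.DLI

open Finset Filter Topology Pool.Agent.helper61.DL Pool.Agent.helper14.NS

theorem cover_cone {n : ℕ} (hn : 0 < n) {ι : Type} [Fintype ι] [DecidableEq ι]
    {V : ι → Fin n →₀ ℕ} {om : ι → ℤ} {ε : ℚ} (hT : Tri V om ε) (hV0 : ∀ i, V i ≠ 0)
    (x : Fin n → ℝ)
    (hx : ∀ j, 0 ≤ x j) : ∃ Δ ∈ maxS V om ε, ∃ c : ι → ℝ, (∀ v, 0 ≤ c v) ∧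
      (∀ v, v ∉ Δ → c v = 0) ∧ ∀ j, x j = ∑ v, c v * (V v j : ℝ) :=
  Pool.Agent.helper8.DL.cover_cone hn hT hV0 x hx

theorem tri_poly {n : ℕ} (hn : 0 < n) {ι : Type} [Fintype ι] [DecidableEq ι]
    {V : ι → Fin n →₀ ℕ} {om : ι → ℤ} {ε : ℚ} (hT : Tri V om ε) (hV0 : ∀ i, V i ≠ 0) :
    ∃ (dd : Finset ι → ι → Fin n → ℚ) (ε₁ : ℚ), 0 < ε₁ ∧
      (∀ η : ℚ, 0 < η → η ≤ ε₁ → Poly (rV V) (fun i => ((1 - η * om i : ℚ) : ℝ)) (maxS V om ε)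
        (fun Δ j => ((∑ v ∈ Δ, (1 - η * om v) * dd Δ v j : ℚ) : ℝ))
        (fun Δ v j => (dd Δ v j : ℝ))) ∧
      ∀ Δ ∈ maxS V om ε, ∀ i, 1 ≤ (fun j => ((∑ v ∈ Δ, dd Δ v j : ℚ) : ℝ)) ⬝ᵥ rV V i :=
  Pool.Agent.helper20.DL.tri_poly_of hT (cover_cone hn hT hV0)

theorem tau_mem {n : ℕ} (hn : 0 < n) {ι : Type} [Fintype ι] [DecidableEq ι] {V : ι → Fin n →₀ ℕ}
    (hconv : ∀ j : Fin n, ∃ i, 0 < V i j ∧ ∀ j', j' ≠ j → V i j' = 0) (F : Finset ι)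
    (hne : F ≠ ∅) (k₀ : Fin n → ℚ) (hk₀ : ∀ i, 1 ≤ k₀ ⬝ᵥ qv V i)
    (hk₀' : ∀ v ∈ F, k₀ ⬝ᵥ qv V v = 1) : tau (rV V) F ∈ facesI V :=
  Pool.Agent.helper81.DL.tau_mem hn hconv F hne k₀ hk₀ hk₀'

theorem span_iff {n : ℕ} (hn : 0 < n) {ι : Type} [Fintype ι] [DecidableEq ι] {V : ι → Fin n →₀ ℕ}
    (hconv : ∀ j : Fin n, ∃ i, 0 < V i j ∧ ∀ j', j' ≠ j → V i j' = 0) (hV : ∀ i, V i ≠ 0)
    (F : Finset ι) (hne : F ≠ ∅)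
    (hli : LinearIndependent ℝ (fun v : {v // v ∈ F} => rV V v)) (G : Finset ι)
    (hG : G ∈ facesI V) :
    (F ⊆ G ∧ F.card = fdim (ex V G) + 1) ↔ (tau (rV V) F = G ∧ ∀ u ∈ tau (rV V) F,
      hv 1 (rV V u) ∈ Submodule.span ℝ ((fun v => hv 1 (rV V v)) '' (F : Set ι))) :=
  Pool.Agent.helper81.DL.span_iff hn hconv hV F hne hli G hG

theorem svol_eq {n : ℕ} (hn : 0 < n) {ι : Type} [Fintype ι] [DecidableEq ι]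
    {V : ι → Fin n →₀ ℕ} (hV : Function.Injective V) (hV0 : ∀ i, V i ≠ 0) {om : ι → ℤ} {ε : ℚ}
    (hT : Tri V om ε) (G : Finset ι) (hG : G ∈ facesI V) :
    ∑ F ∈ fcs (maxS V om ε) with F ⊆ G ∧ F.card = fdim (ex V G) + 1, (nvol (ex V F) : ℝ) =
      svol (ex V G) :=
  Pool.Agent.helper77.DL.svol_eq_of hn hV hV0 hT (cover_cone hn hT hV0)
    (fun F => Pool.Agent.helper3.DL.Vol1.open_simplex F) G hG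

theorem face_eq {n : ℕ} (hn : 0 < n) {ι : Type} [Fintype ι] [DecidableEq ι]
    {V : ι → Fin n →₀ ℕ} (hV : Function.Injective V)
    (hconv : ∀ j : Fin n, ∃ i, 0 < V i j ∧ ∀ j', j' ≠ j → V i j' = 0) (hV0 : ∀ i, V i ≠ 0)
    (G : Finset ι) (hG : G ∈ facesI V) (S : Finset (Finset (Fin n → ℕ))) (hS : SubI V G S)
    (F : Finset ι) (hFG : F ⊆ G) (hcard : F.card = fdim (ex V G) + 1)
    (hli : LinearIndependent ℝ (fun v : {v // v ∈ F} => rV V v))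
    (htau : ∀ u ∈ G, hv 1 (rV V u) ∈
      Submodule.span ℝ ((fun v => hv 1 (rV V v)) '' (F : Set ι)))
    (s : ℝ) (ξ : Fin n → ℝ) (hs : 0 < s) (hξ : ∀ i, 0 < ξ i) (R : ℝ) {ℓ : ℕ} {β : Type}
    [Fintype β] (hℓ : ℓ + F.card = n + 1)
    (D : β → Fin ℓ → Fin (n + 1) → ℝ) (hD : Dec (rV V) F s ξ R D) :
    jayI V S s ξ = nvol (ex V F) * R :=
  Pool.Agent.helper24.DL.face_eq hn hV hconv hV0 G hG S hS F hFG hcard hli htau s ξ hs hξ R hℓ D hD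

theorem nvol_apex {n : ℕ} (F : Finset (Fin n →₀ ℕ)) (v : Fin n →₀ ℕ) (i : Fin n) (hv : v i = 1)
    (hF : ∀ u ∈ F, u i = 0) [DecidableEq (Fin n →₀ ℕ)] : nvol (insert v F) = nvol F :=
  Pool.Agent.helper68.DL.nvol_apex F v i hv hF

theorem nvol_small {n : ℕ} (F : Finset (Fin n →₀ ℕ)) (hF : F.card ≤ 1) : nvol F = 1 :=
  Pool.Agent.helper68.DL.nvol_small F hF

theorem ZZ_limit {n : ℕ} {ι : Type} [Fintype ι] [DecidableEq ι] (V : ι → Fin n → ℚ)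
    (𝒱 : Finset (Finset ι)) (hcard : ∀ Δ ∈ 𝒱, Δ.card = n)
    (hli : ∀ Δ ∈ 𝒱, LinearIndependent ℚ (fun i : {i // i ∈ Δ} => V i))
    (t : Finset ι → ι → ℚ) (ht0 : ∀ Δ ∈ 𝒱, ∀ v, v ∉ Δ → t Δ v = 0)
    (ht : ∀ Δ ∈ 𝒱, ∀ v ∈ Δ, t Δ v ≠ 0)
    (E : Finset ι → ι → ℚ) (hE0 : ∀ Δ ∈ 𝒱, ∀ v, v ∉ Δ → E Δ v = 0)
    (hE : ∀ Δ ∈ 𝒱, ∀ j, ∑ v, E Δ v * V v j = 1) (hpos : ∀ Δ ∈ 𝒱, 0 < ∑ v, E Δ v)
    (low : ∀ Δ₀ ∈ 𝒱, ∀ σ : Finset ι, (∀ v, v ∈ σ ↔ E Δ₀ v ≠ 0) →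
      ∀ α : ι → ℕ, ∑ v, α v + σ.card < n →
      ∑ Δ ∈ 𝒱 with σ ⊆ Δ, (∏ v, t Δ v ^ α v) / (volQ V Δ * ∏ v ∈ Δ \ σ, t Δ v) = 0)
    (nn : Finset ι → ℚ) (hnn : ∀ F : Finset ι, F.card ≤ 1 → nn F = 1) :
    ∃ (K : ℚ) (Q : (ι → ℚ) → ℕ → ℚ),
      (∀ s : ℝ, 0 < s → Tendsto (fun ε : ℝ => ZZ nn V 𝒱 (fun Δ v => (E Δ v : ℝ) + ε * t Δ v) s)
        (𝓝[>] 0) (𝓝 ((K : ℝ) / (s + 1) - (s / (s + 1)) * ∑ e ∈ 𝒱.image E,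
          ∑ k ∈ Finset.range (n + 1), (-1) ^ k * (Q e k : ℝ) / (s + (∑ v, e v : ℚ)) ^ (k + 1)))) ∧
      ∀ e ∈ 𝒱.image E, ∀ σ : Finset ι, (∀ v, v ∈ σ ↔ e v ≠ 0) →
        (∀ P : MvPolynomial ι ℚ, lamQ V 𝒱 t σ (gpoly (fun F => nn F ^ 2) e * P) = 0) →
          ∀ k, Q e k = 0 :=
  Pool.Agent.helper80.DL.ZZ_limit_of Pool.Agent.helper18.DL.limit_star V 𝒱 hcard hli t ht0 ht E
    hE0 hE hpos low nn hnn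

end Pool.Agent.helper61.DLI
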