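import Mathlib
import Pool.Agent.helper61.DL.Glue

set_option autoImplicit false

/-! Regrouping the Denef-Loeser sum along a triangulation. -/

namespace Pool.Agent.helper61.DL

open Finset Filter Topology Pool.Agent.helper14.NS Pool.Agent.helper61.DLI

variable {n : ℕ} {ι : Type} [Fintype ι] [DecidableEq ι]

/-- the coefficient of a face of dimension `d` (without its volume) -/
noncomputable def cf (d : ℕ) (s : ℝ) : ℝ := if d = 0 then 1 else (-1) ^ d * (s / (s + 1))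

/-- the DL function as a sum over faces with the parameter `ξ` -/
noncomputable def ZI (V : ι → Fin n →₀ ℕ) (D : Finset ι → Finset (Finset (Fin n → ℕ))) (s : ℝ)
    (ξ : Fin n → ℝ) : ℝ :=
  ∑ G ∈ facesI V, cf (fdim (ex V G)) s * svol (ex V G) * jayI V (D G) s ξ

theorem regroup (hn : 0 < n) {V : ι → Fin n →₀ ℕ} (hV : Function.Injective V)
    (hV0 : ∀ i, V i ≠ 0) {om : ι → ℤ} {ε : ℚ} (hT : Tri V om ε)
    (D : Finset ι → Finset (Finset (Fin n → ℕ)))
    (s : ℝ) (ξ : Fin n → ℝ) (R : Finset ι → ℝ)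
    (hli : ∀ F ∈ fcs (maxS V om ε), LinearIndependent ℝ (fun v : {v // v ∈ F} => rV V v))
    (hR0 : ∀ F ∈ fcs (maxS V om ε), F ≠ ∅ → (∃ u ∈ tau (rV V) F, hv 1 (rV V u) ∉
      Submodule.span ℝ ((fun v => hv 1 (rV V v)) '' (F : Set ι))) → R F = 0)
    (hR1 : ∀ F ∈ fcs (maxS V om ε), F ≠ ∅ → (∀ u ∈ tau (rV V) F, hv 1 (rV V u) ∈
      Submodule.span ℝ ((fun v => hv 1 (rV V v)) '' (F : Set ι))) →
      jayI V (D (tau (rV V) F)) s ξ = nvol (ex V F) * R F)
    (htau : ∀ F ∈ fcs (maxS V om ε), F ≠ ∅ → tau (rV V) F ∈ facesI V) :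
    ∑ F ∈ (fcs (maxS V om ε)).erase ∅, wt (fun F => (nvol (ex V F) : ℚ)) s F * R F =
      ZI V D s ξ := by
  classical
  set 𝒱 := maxS V om ε with h𝒱
  -- the good faces
  set good : Finset (Finset ι) := ((fcs 𝒱).erase ∅).filter (fun F => ∀ u ∈ tau (rV V) F,
    hv 1 (rV V u) ∈ Submodule.span ℝ ((fun v => hv 1 (rV V v)) '' (F : Set ι))) with hgood
  have hg : ∀ F, F ∈ good ↔ (F ≠ ∅ ∧ F ∈ fcs 𝒱) ∧ ∀ u ∈ tau (rV V) F,
    hv 1 (rV V u) ∈ Submodule.span ℝ ((fun v => hv 1 (rV V v)) '' (F : Set ι)) := by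
    intro F
    rw [hgood, Finset.mem_filter, Finset.mem_erase]
  have hconv := hT.conv
  -- characterisation of the fibres
  have hfib : ∀ G ∈ facesI V, good.filter (fun F => tau (rV V) F = G) =
      (fcs 𝒱).filter (fun F => F ⊆ G ∧ F.card = fdim (ex V G) + 1) := by
    intro G hG
    ext F
    have e1 : F ∈ good.filter (fun F => tau (rV V) F = G) ↔ F ∈ good ∧ tau (rV V) F = G :=
      Finset.mem_filter
    rw [e1, hg, Finset.mem_filter]
    constructor
    · rintro ⟨⟨⟨h1, h2⟩, h3⟩, h4⟩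
      exact ⟨h2, (span_iff hn hconv hV0 F h1 (hli F h2) G hG).2 ⟨h4, h3⟩⟩
    · rintro ⟨h2, h5⟩
      have h1 : F ≠ ∅ := by
        rintro rfl
        simp at h5
      obtain ⟨h4, h3⟩ := (span_iff hn hconv hV0 F h1 (hli F h2) G hG).1 h5
      exact ⟨⟨⟨h1, h2⟩, h3⟩, h4⟩
  -- drop the bad faces
  have hstep1 : ∑ F ∈ (fcs 𝒱).erase ∅, wt (fun F => (nvol (ex V F) : ℚ)) s F * R F =
      ∑ F ∈ good, wt (fun F => (nvol (ex V F) : ℚ)) s F * R F := by
    rw [hgood, Finset.sum_filter]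
    refine Finset.sum_congr rfl fun F hF => ?_
    split_ifs with h
    · rfl
    · push Not at h
      rw [hR0 F (Finset.mem_erase.1 hF).2 (Finset.mem_erase.1 hF).1 h, mul_zero]
  rw [hstep1, ← Finset.sum_fiberwise_of_maps_to (t := facesI V) (g := fun F => tau (rV V) F)
    (fun F hF => htau F ((hg F).1 hF).1.2 ((hg F).1 hF).1.1)]
  unfold ZI
  refine Finset.sum_congr rfl fun G hG => ?_
  rw [hfib G hG, ← svol_eq hn hV hV0 hT G hG, Finset.mul_sum, Finset.sum_mul]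
  refine Finset.sum_congr rfl fun F hF => ?_
  obtain ⟨h2, h5, h6⟩ := Finset.mem_filter.1 hF
  have h1 : F ≠ ∅ := by
    rintro rfl
    simp at h6
  obtain ⟨h4, h3⟩ := (span_iff hn hconv hV0 F h1 (hli F h2) G hG).1 ⟨h5, h6⟩
  have h7 := hR1 F h2 h1 h3
  rw [h4] at h7
  rw [h7]
  unfold wt cf
  rw [h6]
  have hcard : (ex V F).card = F.card := Finset.card_image_of_injective F hV
  by_cases hd : fdim (ex V G) = 0
  · rw [hd]
    have h8 : nvol (ex V F) = 1 := nvol_small _ (by rw [hcard, h6, hd])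
    rw [h8]
    simp
  · rw [if_neg (by omega), if_neg hd]
    simp only [Nat.add_sub_cancel, Rat.cast_natCast]
    ring

end Pool.Agent.helper61.DL
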