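import Mathlib
import Pool.Agent.helper61.DL.Regroup
import Pool.Agent.helper14.NS.CritS
import Pool.Agent.helper11.NS.PolyTheta

set_option autoImplicit false
set_option linter.unusedSectionVars false

/-! The poles of the Denef-Loeser sum of a triangulated Newton boundary. -/

namespace Pool.Agent.helper61.DL

open Finset Filter Topology Pool.Agent.helper14.NS Pool.Agent.helper61.DLI
open Pool.Agent.helper51.DL (LimHyp lim_zero lim_dec)

variable {n : ℕ} {ι : Type} [Fintype ι] [DecidableEq ι]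

lemma adet_volQ (V : ι → Fin n →₀ ℕ) (Δ : Finset ι) (h : Δ.card = n) :
    adet (fun v : {v // v ∈ Δ} => rV V v) = (volQ (qv V) Δ : ℝ) := by
  rw [adet_eq _ (Finset.equivFinOfCardEq h), volQ, dif_pos h]
  rw [Rat.cast_abs]
  have h1 : (((Matrix.of fun i => qv V ((Finset.equivFinOfCardEq h).symm i).1).det : ℚ) : ℝ) =
      (Matrix.of fun i j => ((qv V ((Finset.equivFinOfCardEq h).symm i).1 j : ℚ) : ℝ)).det := by
    rw [← Rat.coe_castHom, RingHom.map_det]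
    rfl
  exact congrArg abs h1.symm

/-- the dual basis from the other side -/
lemma dual_sum (V : ι → Fin n →₀ ℕ) (Δ : Finset ι) (h : Δ.card = n) (dd : ι → Fin n → ℚ)
    (dual : ∀ u ∈ Δ, ∀ v ∈ Δ, (fun j => (dd u j : ℝ)) ⬝ᵥ rV V v = if u = v then 1 else 0)
    (a a' : Fin n) : ∑ v ∈ Δ, dd v a' * qv V v a = if a = a' then 1 else 0 := by
  have h1 := Pool.Agent.helper11.NSR.Theta.expand (rV V) Δ h (fun v j => (dd v j : ℝ)) dual
    (Pi.single a' 1)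
  have h2 := congrFun h1 a
  rw [Finset.sum_apply] at h2
  have h3 : ((∑ v ∈ Δ, dd v a' * qv V v a : ℚ) : ℝ) = if a = a' then 1 else 0 := by
    rw [Pi.single_apply] at h2
    rw [h2]
    push_cast
    refine Finset.sum_congr rfl fun v _ => ?_
    simp [rV, qv]
  by_cases h : a = a'
  · rw [if_pos h] at h3 ⊢
    exact_mod_cast h3
  · rw [if_neg h] at h3 ⊢
    exact_mod_cast h3

/-- vanishing in low degrees -/
lemma low_K {K : Type} [Field K] [CharZero K] {V : ι → Fin n →₀ ℕ} {om : ι → ℤ} {ε : ℚ}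
    (hT : Tri V om ε) (dd : Finset ι → ι → Fin n → ℚ)
    (dual : ∀ Δ ∈ maxS V om ε, ∀ u ∈ Δ, ∀ v ∈ Δ, (fun j => (dd Δ u j : ℝ)) ⬝ᵥ rV V v =
      if u = v then 1 else 0) (ζ : Fin n → K) (t : Finset ι → ι → K)
    (ht : ∀ Δ v, t Δ v = if v ∈ Δ then ∑ a, (dd Δ v a : K) * ζ a else 0)
    (hne : ∀ Δ ∈ maxS V om ε, ∀ v ∈ Δ, t Δ v ≠ 0) (σ : Finset ι)
    (cover : ∀ j : Fin n, ∃ i ∈ σ, V i j ≠ 0) (P : MvPolynomial ι K) (d : ℕ)
    (hP : P.IsHomogeneous d) (hd : d + σ.card < n) :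
    ∑ Δ ∈ (maxS V om ε).filter (fun Δ => σ ⊆ Δ), MvPolynomial.eval (t Δ) P /
      ((volQ (qv V) Δ : K) * ∏ j ∈ Δ \ σ, t Δ j) = 0 := by
  have ht0 : ∀ Δ ∈ maxS V om ε, ∀ v, v ∉ Δ → t Δ v = 0 := fun Δ _ v hv => by
    rw [ht, if_neg hv]
  have h1 := Pool.Agent.helper11.NSR.lamXi_low (qv V) t σ maxS_card ht0 hne (maxS_li hT) ζ
    (by
      intro Δ hΔ a
      have h2 : ∀ v, t Δ v * (qv V v a : K) = if v ∈ Δ then
          ∑ a', ((dd Δ v a' * qv V v a : ℚ) : K) * ζ a' else 0 := by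
        intro v
        rw [ht]
        split_ifs
        · rw [Finset.sum_mul]
          refine Finset.sum_congr rfl fun a' _ => ?_
          push_cast
          ring
        · rw [zero_mul]
      rw [Finset.sum_congr rfl fun v _ => h2 v, ← Finset.sum_filter, Finset.filter_mem_eq_inter,
        Finset.univ_inter, Finset.sum_comm]
      have h3 : ∀ a', ∑ v ∈ Δ, ((dd Δ v a' * qv V v a : ℚ) : K) * ζ a' =
          if a = a' then ζ a' else 0 := by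
        intro a'
        rw [← Finset.sum_mul, ← Rat.cast_sum, dual_sum V Δ (maxS_card Δ hΔ) (dd Δ) (dual Δ hΔ)]
        split_ifs <;> simp
      rw [Finset.sum_congr rfl fun a' _ => h3 a']
      simp)
    (maxS_wall hT σ cover) P d hP hd
  rw [Pool.Agent.helper11.NSR.lamXi_apply] at h1
  exact h1

/-- the two forms of the vertex sum -/
lemma RS_eq_RR {V : ι → Fin n →₀ ℕ} (𝒱 : Finset (Finset ι)) (hcard : ∀ Δ ∈ 𝒱, Δ.card = n)
    (dd : Finset ι → ι → Fin n → ℚ) (x : Finset ι → ι → ℝ) (s : ℝ) (ξ : Fin n → ℝ)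
    (hx : ∀ Δ ∈ 𝒱, ∀ v, x Δ v = if v ∈ Δ then (fun j => (dd Δ v j : ℝ)) ⬝ᵥ ξ else 0)
    (F : Finset ι) :
    RS (rV V) 𝒱 (fun Δ j => ∑ v ∈ Δ, (dd Δ v j : ℝ)) (fun Δ v j => (dd Δ v j : ℝ)) s ξ F =
      RR (qv V) 𝒱 x s F := by
  unfold RS RR
  refine Finset.sum_congr rfl fun Δ hΔ => ?_
  obtain ⟨h1, h2⟩ := Finset.mem_filter.1 hΔ
  rw [adet_volQ V Δ (hcard Δ h1)]
  congr 2
  · congr 2
    have h3 : ∑ v ∈ Δ, x Δ v = ∑ v ∈ Δ, (fun j => (dd Δ v j : ℝ)) ⬝ᵥ ξ :=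
      Finset.sum_congr rfl fun v hv => by rw [hx Δ h1 v, if_pos hv]
    rw [h3]
    simp only [dotProduct, Finset.sum_mul]
    rw [Finset.sum_comm]
  · refine Finset.prod_congr rfl fun v hv => ?_
    rw [hx Δ h1 v, if_pos (Finset.mem_sdiff.1 hv).1]

/-- the sum over the faces at `ξ` near `1` is the vertex sum of the triangulation -/
theorem ZI_eq_ZZ (hn : 0 < n) {V : ι → Fin n →₀ ℕ} (hV : Function.Injective V)
    (hV0 : ∀ i, V i ≠ 0) {om : ι → ℤ} {ε : ℚ} (hT : Tri V om ε)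
    (D : Finset ι → Finset (Finset (Fin n → ℕ))) (hD : ∀ G ∈ facesI V, SubI V G (D G))
    (dd : Finset ι → ι → Fin n → ℚ) (ε₁ : ℚ) (hε₁ : 0 < ε₁)
    (hpoly : ∀ η : ℚ, 0 < η → η ≤ ε₁ → Poly (rV V) (fun i => ((1 - η * om i : ℚ) : ℝ))
      (maxS V om ε) (fun Δ j => ((∑ v ∈ Δ, (1 - η * om v) * dd Δ v j : ℚ) : ℝ))
        (fun Δ v j => (dd Δ v j : ℝ)))
    (hone : ∀ Δ ∈ maxS V om ε, ∀ i, 1 ≤ (fun j => ((∑ v ∈ Δ, dd Δ v j : ℚ) : ℝ)) ⬝ᵥ rV V i)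
    (s : ℝ) (hs : 0 < s) (ξ : Fin n → ℝ) (hξ : ∀ i, 0 < ξ i)
    (hgen : ∀ Δ ∈ maxS V om ε, ∀ v ∈ Δ, (fun j => (dd Δ v j : ℝ)) ⬝ᵥ ξ ≠ 0)
    (x : Finset ι → ι → ℝ) (hx : ∀ Δ ∈ maxS V om ε, ∀ v, x Δ v =
      if v ∈ Δ then (fun j => (dd Δ v j : ℝ)) ⬝ᵥ ξ else 0) :
    ZZ (fun F => (nvol (ex V F) : ℚ)) (qv V) (maxS V om ε) x s = ZI V D s ξ := by
  classical
  set 𝒱 := maxS V om ε with h𝒱
  have hcard : ∀ Δ ∈ 𝒱, Δ.card = n := maxS_card
  have hP1 := hpoly ε₁ hε₁ le_rfl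
  have hfcs : ∀ F, F ∈ fcs 𝒱 ↔ ∃ Δ ∈ 𝒱, F ⊆ Δ := by
    intro F
    unfold fcs
    simp
  -- linear independence
  have hliΔ : ∀ Δ ∈ 𝒱, LinearIndependent ℝ (fun v : {v // v ∈ Δ} => rV V v) := by
    intro Δ hΔ
    rw [Fintype.linearIndependent_iff]
    intro g hg i
    have h1 : (fun j => (dd Δ i j : ℝ)) ⬝ᵥ (∑ v : {i // i ∈ Δ}, g v • rV V v) = 0 := by
      rw [hg, dotProduct_zero]
    rw [dotProduct_sum] at h1
    have h2 : ∀ v : {i // i ∈ Δ}, (fun j => (dd Δ i j : ℝ)) ⬝ᵥ g v • rV V v =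
        if v = i then g v else 0 := by
      intro v
      rw [dotProduct_smul, hP1.dual Δ hΔ i i.2 v v.2, smul_eq_mul]
      by_cases hv : v = i
      · subst hv; simp
      · rw [if_neg hv, if_neg (fun h => hv (Subtype.ext h.symm)), mul_zero]
    rw [Finset.sum_congr rfl fun v _ => h2 v] at h1
    simpa using h1
  have hli : ∀ F ∈ fcs 𝒱, LinearIndependent ℝ (fun v : {v // v ∈ F} => rV V v) := by
    intro F hF
    obtain ⟨Δ, hΔ, hFΔ⟩ := (hfcs F).1 hF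
    exact (hliΔ Δ hΔ).comp (fun v : {v // v ∈ F} => (⟨v.1, hFΔ v.2⟩ : {v // v ∈ Δ}))
      (fun a b hab => Subtype.ext (Subtype.mk.inj hab))
  -- the hypotheses of the limit
  have hcast : ∀ j, ∀ Δ : Finset ι, ((∑ v ∈ Δ, dd Δ v j : ℚ) : ℝ) = ∑ v ∈ Δ, (dd Δ v j : ℝ) := by
    intro j Δ
    push_cast
    rfl
  have hX : ∀ G ∈ fcs 𝒱, G.card < n → (∀ i, ∃ v ∈ G, rV V v i ≠ 0) →
      ∑ Δ ∈ 𝒱 with G ⊆ Δ, 1 / (adet (fun v : {v // v ∈ Δ} => rV V v) *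
        ∏ v ∈ Δ \ G, (fun j => (dd Δ v j : ℝ)) ⬝ᵥ ξ) = 0 := by
    intro G hG hGn hGc
    have h1 := low_K (K := ℝ) hT dd (fun Δ hΔ => hP1.dual Δ hΔ) ξ
      (fun Δ v => if v ∈ Δ then ∑ a, (dd Δ v a : ℝ) * ξ a else 0) (fun _ _ => rfl)
      (fun Δ hΔ v hv => by
        rw [if_pos hv]
        exact hgen Δ hΔ v hv) G (fun j => by
          obtain ⟨v, hv, h⟩ := hGc j
          refine ⟨v, hv, ?_⟩
          intro h0
          apply h
          simp [rV, h0]) 1 0 (MvPolynomial.isHomogeneous_one ι ℝ) (by omega)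
    rw [← h1]
    refine Finset.sum_congr rfl fun Δ hΔ => ?_
    obtain ⟨h2, h3⟩ := Finset.mem_filter.1 hΔ
    rw [adet_volQ V Δ (hcard Δ h2), map_one]
    congr 2
    refine Finset.prod_congr rfl fun v hv => ?_
    rw [if_pos (Finset.mem_sdiff.1 hv).1]
    rfl
  have hLim : ∀ F ∈ fcs 𝒱, LimHyp (rV V) (fun i => (om i : ℝ)) 𝒱 (fun Δ v j => (dd Δ v j : ℝ))
      (fun m : ℕ => (ε₁ : ℝ) / (m + 1)) F s ξ := by
    intro F hF
    have hε₁' : (0 : ℝ) < ε₁ := by exact_mod_cast hε₁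
    refine ⟨fun m => by positivity, ?_, fun m => ?_, ?_, hF, hs, hξ, hgen, hX⟩
    · have h1 := tendsto_one_div_add_atTop_nhds_zero_nat (𝕜 := ℝ)
      have h2 := h1.const_mul (ε₁ : ℝ)
      rw [mul_zero] at h2
      refine h2.congr fun m => ?_
      rw [mul_one_div]
    · have h1 := hpoly (ε₁ / (m + 1)) (by positivity) (by
        rw [div_le_iff₀ (by positivity)]
        have : (0 : ℚ) ≤ m := by positivity
        nlinarith)
      have e1 : (fun i => ((1 - ε₁ / (m + 1) * om i : ℚ) : ℝ)) =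
          fun i => 1 - (ε₁ : ℝ) / (m + 1) * (om i : ℝ) := by
        funext i
        push_cast
        rfl
      have e2 : (fun (Δ : Finset ι) j => ((∑ v ∈ Δ, (1 - ε₁ / (m + 1) * om v) * dd Δ v j : ℚ) : ℝ)) =
          fun Δ j => ∑ v ∈ Δ, (1 - (ε₁ : ℝ) / (m + 1) * (om v : ℝ)) * (dd Δ v j : ℝ) := by
        funext Δ j
        push_cast
        rfl
      rw [e1, e2] at h1
      exact h1
    · intro Δ hΔ i
      have h1 := hone Δ hΔ i
      simpa only [hcast] using h1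
  -- compact faces
  have htau : ∀ F ∈ fcs 𝒱, F ≠ ∅ → tau (rV V) F ∈ facesI V := by
    intro F hF hne
    obtain ⟨Δ, hΔ, hFΔ⟩ := (hfcs F).1 hF
    have hdotq : ∀ i, (((∑ v ∈ Δ, dd Δ v) ⬝ᵥ qv V i : ℚ) : ℝ) =
        (fun j => ((∑ v ∈ Δ, dd Δ v j : ℚ) : ℝ)) ⬝ᵥ rV V i := by
      intro i
      simp only [dotProduct, Finset.sum_apply]
      push_cast
      rfl
    refine tau_mem hn hT.conv F hne (∑ v ∈ Δ, dd Δ v) (fun i => ?_) (fun v hv => ?_)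
    · have h1 := hone Δ hΔ i
      rw [← hdotq] at h1
      exact_mod_cast h1
    · have h1 : (((∑ v ∈ Δ, dd Δ v) ⬝ᵥ qv V v : ℚ) : ℝ) = 1 := by
        rw [hdotq]
        have e3 : (fun j => ((∑ v ∈ Δ, dd Δ v j : ℚ) : ℝ)) =
            ∑ u ∈ Δ, (fun j => (dd Δ u j : ℝ)) := by
          funext j
          rw [Finset.sum_apply]
          push_cast
          rfl
        rw [e3, sum_dotProduct]
        rw [Finset.sum_congr rfl fun u hu => hP1.dual Δ hΔ u hu v (hFΔ hv)]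
        rw [Finset.sum_ite_eq' Δ v, if_pos (hFΔ hv)]
      exact_mod_cast h1
  have hRS := fun F => RS_eq_RR 𝒱 hcard dd x s ξ hx F (V := V)
  unfold ZZ
  refine regroup hn hV hV0 hT D s ξ (fun F => RR (qv V) 𝒱 x s F) hli ?_ ?_ htau
  · intro F hF hne hu
    obtain ⟨u, hu, hu'⟩ := hu
    simp only [← hRS]
    exact lim_zero (hLim F hF) u hu hu'
  · intro F hF hne hsp
    simp only [← hRS]
    have hG := htau F hF hne
    obtain ⟨Δ, hΔ, hFΔ⟩ := (hfcs F).1 hF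
    have hFn : F.card ≤ n := by
      rw [← hcard Δ hΔ]
      exact Finset.card_le_card hFΔ
    obtain ⟨h1, h2⟩ := (span_iff hn hT.conv hV0 F hne (hli F hF) _ hG).2 ⟨rfl, hsp⟩
    obtain ⟨β, hβ, DD, hDD⟩ := lim_dec (hLim F hF) hne hsp (n + 1 - F.card) (by omega) (by omega)
    exact face_eq hn hV hT.conv hV0 _ hG _ (hD _ hG) F h1 h2 (hli F hF) hsp s ξ hs hξ _
      (by omega) DD hDD

end Pool.Agent.helper61.DL
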