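import Mathlib
import Pool.Agent.helper61.DL.Main

set_option autoImplicit false
set_option linter.unusedSectionVars false

/-! The poles of the Denef-Loeser sum of a triangulated Newton boundary, part 2: the limit. -/

namespace Pool.Agent.helper61.DL

open Finset Filter Topology Pool.Agent.helper14.NS Pool.Agent.helper61.DLI
open Pool.Agent.helper67.ND

variable {n : ℕ} {ι : Type} [Fintype ι] [DecidableEq ι]

/-- `ZI` is continuous at `ξ = 1` -/
lemma ZI_tendsto (V : ι → Fin n →₀ ℕ) (D : Finset ι → Finset (Finset (Fin n → ℕ)))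
    (hne : ∀ G ∈ facesI V, ∀ δ ∈ D G, ∀ a ∈ δ, a ≠ 0) (s : ℝ) (hs : 0 < s) (η : Fin n → ℝ) :
    Tendsto (fun e : ℝ => ZI V D s (fun j => 1 + e * η j)) (𝓝[>] 0) (𝓝 (ZI V D s fun _ => 1)) := by
  unfold ZI jayI
  refine tendsto_finsetSum _ fun G hG => Tendsto.const_mul _ ?_
  refine tendsto_finsetSum _ fun δ hδ => ?_
  refine tendsto_const_nhds.div ?_ ?_
  · refine tendsto_finsetProd _ fun a ha => ?_
    have h1 : Continuous fun e : ℝ => (ordI V a : ℝ) * s + ∑ i, (a i : ℝ) * (1 + e * η i) := by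
      fun_prop
    have h2 := (h1.tendsto 0).mono_left (nhdsWithin_le_nhds (s := Set.Ioi 0))
    simpa using h2
  · refine Finset.prod_ne_zero_iff.2 fun a ha => ?_
    obtain ⟨j, hj⟩ : ∃ j, a j ≠ 0 := by
      by_contra hcon
      push Not at hcon
      exact hne G hG δ hδ a ha (funext hcon)
    have h1 : 0 < ∑ i, (a i : ℝ) * 1 := by
      refine Finset.sum_pos' (fun i _ => by positivity) ⟨j, Finset.mem_univ _, ?_⟩
      have : (0 : ℝ) < a j := by exact_mod_cast Nat.pos_of_ne_zero hj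
      linarith
    have h2 : 0 ≤ (ordI V a : ℝ) * s := by positivity
    linarith

/-- a generic rational vector -/
lemma exists_eta (𝒱 : Finset (Finset ι)) (dd : Finset ι → ι → Fin n → ℚ)
    (h : ∀ Δ ∈ 𝒱, ∀ v ∈ Δ, dd Δ v ≠ 0) :
    ∃ η : Fin n → ℚ, ∀ Δ ∈ 𝒱, ∀ v ∈ Δ, dd Δ v ⬝ᵥ η ≠ 0 := by
  classical
  set I := {p : Finset ι × ι // p.1 ∈ 𝒱 ∧ p.2 ∈ p.1}
  have : Finite I := Subtype.finite
  obtain ⟨η, hη⟩ := Module.Dual.exists_forall_ne_zero_of_forall_exists (K := ℚ)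
    (M := Fin n → ℚ) (ι := I) (fun p => ∑ j, dd p.1.1 p.1.2 j • LinearMap.proj j) (by
      intro p
      have h1 := h p.1.1 p.2.1 p.1.2 p.2.2
      obtain ⟨j, hj⟩ : ∃ j, dd p.1.1 p.1.2 j ≠ 0 := by
        by_contra hcon
        push Not at hcon
        exact h1 (funext hcon)
      refine ⟨Pi.single j 1, ?_⟩
      rw [LinearMap.sum_apply, Finset.sum_eq_single j]
      · simpa using hj
      · intro i _ hi
        simp [hi]
      · intro h; exact absurd (Finset.mem_univ _) h)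
  refine ⟨η, fun Δ hΔ v hv => ?_⟩
  have h1 := hη ⟨(Δ, v), hΔ, hv⟩
  rw [LinearMap.sum_apply] at h1
  simpa [dotProduct] using h1

lemma homComp_map (k : ℕ) (P : MvPolynomial ι ℚ) :
    MvPolynomial.homogeneousComponent k (MvPolynomial.map (algebraMap ℚ ℂ) P) =
      MvPolynomial.map (algebraMap ℚ ℂ) (MvPolynomial.homogeneousComponent k P) := by
  ext m
  rw [MvPolynomial.coeff_homogeneousComponent, MvPolynomial.coeff_map, MvPolynomial.coeff_map,
    MvPolynomial.coeff_homogeneousComponent]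
  split_ifs <;> simp

lemma lamD_cast (V : ι → Fin n → ℚ) (𝒱 : Finset (Finset ι)) (t : Finset ι → ι → ℚ)
    (σ : Finset ι) (P : MvPolynomial ι ℚ) :
    Pool.Agent.helper11.NSR.lamD V (fun Δ v => ((t Δ v : ℚ) : ℂ)) 𝒱 σ
      (MvPolynomial.map (algebraMap ℚ ℂ) P) = ((lamQ V 𝒱 t σ P : ℚ) : ℂ) := by
  rw [Pool.Agent.helper11.NSR.lamD_apply, lamQ]
  push_cast
  refine Finset.sum_congr rfl fun Δ _ => ?_
  congr 1
  rw [homComp_map, MvPolynomial.eval_map]
  have h := MvPolynomial.eval₂_comp_left (algebraMap ℚ ℂ) (RingHom.id ℚ) (t Δ)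
    (MvPolynomial.homogeneousComponent (n - σ.card) P)
  rw [RingHom.comp_id] at h
  exact h.symm

/-- **The poles** of the sum over the faces. -/
theorem ZI_form (hn : 0 < n) {V : ι → Fin n →₀ ℕ} (hV : Function.Injective V)
    (hV0 : ∀ i, V i ≠ 0) {om : ι → ℤ} {ε : ℚ} (hT : Tri V om ε) {c : ι → ℂ}
    (hc : ∀ i, c i ≠ 0) (hyp : (∀ i, om i = 0) ∨ AlgebraicIndependent ℚ c)
    (b : Polynomial ℂ) (hb : TruncB (∑ i, MvPolynomial.monomial (V i) (c i)) b)
    (D : Finset ι → Finset (Finset (Fin n → ℕ))) (hD : ∀ G ∈ facesI V, SubI V G (D G)) :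
    ∃ (K : ℚ) (I : Finset (ι → ℚ)) (Q : (ι → ℚ) → ℕ → ℚ),
      (∀ s : ℝ, 0 < s → ZI V D s (fun _ => 1) = (K : ℝ) / (s + 1) - (s / (s + 1)) * ∑ e ∈ I,
        ∑ k ∈ Finset.range (n + 1), (-1) ^ k * (Q e k : ℝ) / (s + (∑ v, e v : ℚ)) ^ (k + 1)) ∧
      ∀ e ∈ I, 0 < ∑ v, e v ∧
        ((∃ k, Q e k ≠ 0) → b.eval (-((∑ v, e v : ℚ) : ℂ)) = 0) := by
  classical
  obtain ⟨dd, ε₁, hε₁, hpoly, hone⟩ := tri_poly hn hT hV0
  set 𝒱 := maxS V om ε with h𝒱
  have hcard : ∀ Δ ∈ 𝒱, Δ.card = n := maxS_card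
  have hP1 := hpoly ε₁ hε₁ le_rfl
  have hdd0 : ∀ Δ ∈ 𝒱, ∀ v ∈ Δ, dd Δ v ≠ 0 := by
    intro Δ hΔ v hv h0
    have h1 := hP1.dual Δ hΔ v hv v hv
    simp only [h0] at h1
    simp [dotProduct] at h1
  obtain ⟨η, hη⟩ := exists_eta 𝒱 dd hdd0
  set E : Finset ι → ι → ℚ := fun Δ v => if v ∈ Δ then ∑ j, dd Δ v j else 0 with hEdef
  set t : Finset ι → ι → ℚ := fun Δ v => if v ∈ Δ then dd Δ v ⬝ᵥ η else 0 with htdef
  have hE0 : ∀ Δ ∈ 𝒱, ∀ v, v ∉ Δ → E Δ v = 0 := fun Δ _ v hv => if_neg hv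
  have ht0 : ∀ Δ ∈ 𝒱, ∀ v, v ∉ Δ → t Δ v = 0 := fun Δ _ v hv => if_neg hv
  have ht : ∀ Δ ∈ 𝒱, ∀ v ∈ Δ, t Δ v ≠ 0 := fun Δ hΔ v hv => by
    rw [htdef]
    simp only [if_pos hv]
    exact hη Δ hΔ v hv
  have hdual := fun Δ hΔ => dual_sum V Δ (hcard Δ hΔ) (dd Δ) (hP1.dual Δ hΔ)
  have hE : ∀ Δ ∈ 𝒱, ∀ j, ∑ v, E Δ v * qv V v j = 1 := by
    intro Δ hΔ j
    have h2 : ∀ v, E Δ v * qv V v j = if v ∈ Δ then ∑ a', dd Δ v a' * qv V v j else 0 := by
      intro v
      rw [hEdef]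
      simp only
      split_ifs
      · rw [Finset.sum_mul]
      · rw [zero_mul]
    rw [Finset.sum_congr rfl fun v _ => h2 v, ← Finset.sum_filter, Finset.filter_mem_eq_inter,
      Finset.univ_inter, Finset.sum_comm, Finset.sum_congr rfl fun a' _ => hdual Δ hΔ j a']
    simp
  have htη : ∀ Δ ∈ 𝒱, ∀ a, ∑ v, t Δ v * qv V v a = η a := by
    intro Δ hΔ a
    have h2 : ∀ v, t Δ v * qv V v a = if v ∈ Δ then
        ∑ a', (dd Δ v a' * qv V v a) * η a' else 0 := by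
      intro v
      rw [htdef]
      simp only
      split_ifs
      · rw [dotProduct, Finset.sum_mul]
        exact Finset.sum_congr rfl fun _ _ => by ring
      · rw [zero_mul]
    rw [Finset.sum_congr rfl fun v _ => h2 v, ← Finset.sum_filter, Finset.filter_mem_eq_inter,
      Finset.univ_inter, Finset.sum_comm]
    rw [Finset.sum_congr rfl fun a' _ => by rw [← Finset.sum_mul, hdual Δ hΔ a a']]
    simp
  have hpos : ∀ Δ ∈ 𝒱, 0 < ∑ v, E Δ v := by
    intro Δ hΔ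
    have h1 : ∑ v, E Δ v = ∑ j, ∑ v ∈ Δ, dd Δ v j := by
      rw [hEdef, Finset.sum_comm, ← Finset.sum_filter, Finset.filter_mem_eq_inter,
        Finset.univ_inter]
    rw [h1]
    have : Nonempty (Fin n) := ⟨⟨0, hn⟩⟩
    refine Finset.sum_pos (fun j _ => ?_) Finset.univ_nonempty
    obtain ⟨i, hi, hi'⟩ := hT.conv j
    have h2 := hone Δ hΔ i
    rw [dotProduct, Finset.sum_eq_single j] at h2
    · have h3 : (0 : ℝ) < rV V i j := by
        unfold rV
        exact_mod_cast hi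
      have h4 : (0 : ℝ) < ((∑ v ∈ Δ, dd Δ v j : ℚ) : ℝ) := by
        by_contra hcon
        push Not at hcon
        nlinarith
      exact_mod_cast h4
    · intro j' _ hj'
      have : rV V i j' = 0 := by
        unfold rV
        exact_mod_cast hi' j' hj'
      rw [this, mul_zero]
    · intro h; exact absurd (Finset.mem_univ _) h
  have hcov : ∀ e : ι → ℚ, (∀ j, ∑ v, e v * qv V v j = 1) → ∀ σ : Finset ι,
      (∀ v, v ∈ σ ↔ e v ≠ 0) → ∀ j : Fin n, ∃ i ∈ σ, V i j ≠ 0 := by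
    intro e he σ hσ j
    by_contra hcon
    push Not at hcon
    have h1 := he j
    rw [Finset.sum_eq_zero] at h1
    · exact zero_ne_one h1
    · intro v _
      by_cases hv : e v = 0
      · rw [hv, zero_mul]
      · have : qv V v j = 0 := by
          unfold qv
          exact_mod_cast hcon v ((hσ v).2 hv)
        rw [this, mul_zero]
  have low : ∀ Δ₀ ∈ 𝒱, ∀ σ : Finset ι, (∀ v, v ∈ σ ↔ E Δ₀ v ≠ 0) →
      ∀ α : ι → ℕ, ∑ v, α v + σ.card < n →
      ∑ Δ ∈ 𝒱 with σ ⊆ Δ, (∏ v, t Δ v ^ α v) / (volQ (qv V) Δ * ∏ v ∈ Δ \ σ, t Δ v) = 0 := by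
    intro Δ₀ hΔ₀ σ hσ α hα
    have h1 := low_K (K := ℚ) hT dd (fun Δ hΔ => hP1.dual Δ hΔ) η t
      (fun Δ v => by
        rw [htdef]
        simp only [dotProduct, Rat.cast_id]) ht σ (hcov _ (hE Δ₀ hΔ₀) σ hσ)
      (∏ v, MvPolynomial.X v ^ α v) (∑ v, α v) (by
        refine MvPolynomial.IsHomogeneous.prod _ _ _ fun v _ => ?_
        exact MvPolynomial.isHomogeneous_X_pow v (α v)) hα
    rw [← h1]
    refine Finset.sum_congr rfl fun Δ _ => ?_
    simp only [map_prod, map_pow, MvPolynomial.eval_X, Rat.cast_id]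
  have hnn : ∀ F : Finset ι, F.card ≤ 1 → (fun F => (nvol (ex V F) : ℚ)) F = 1 := by
    intro F hF
    have : nvol (ex V F) = 1 := nvol_small _ (le_trans Finset.card_image_le hF)
    simp only [this, Nat.cast_one]
  obtain ⟨K, Q, hlim, hQ⟩ := ZZ_limit (qv V) 𝒱 hcard (maxS_li hT) t ht0 ht E hE0 hE hpos low
    (fun F => (nvol (ex V F) : ℚ)) hnn
  refine ⟨K, 𝒱.image E, Q, fun s hs => ?_, fun e he => ⟨?_, ?_⟩⟩
  · -- the identity
    refine tendsto_nhds_unique (ZI_tendsto V D ?_ s hs (fun j => (η j : ℝ)))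
      ((hlim s hs).congr' ?_)
    · intro G hG δ hδ a ha h0
      have h1 := ((hD G hG).indep δ hδ).ne_zero ⟨a, ha⟩
      apply h1
      funext i
      simp [h0]
    · -- the two sums agree near `0`
      have hx : ∀ e : ℝ, ∀ Δ ∈ 𝒱, ∀ v, (E Δ v : ℝ) + e * t Δ v =
          if v ∈ Δ then (fun j => (dd Δ v j : ℝ)) ⬝ᵥ (fun j => 1 + e * (η j : ℝ)) else 0 := by
        intro e Δ hΔ v
        rw [hEdef, htdef]
        simp only
        split_ifs
        · simp only [dotProduct]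
          push_cast
          rw [Finset.mul_sum, ← Finset.sum_add_distrib]
          exact Finset.sum_congr rfl fun j _ => by ring
        · simp
      have hev1 : ∀ᶠ e in 𝓝[>] (0 : ℝ), ∀ i : Fin n, 0 < 1 + e * (η i : ℝ) := by
        rw [Filter.eventually_all]
        intro i
        have h1 : Continuous fun e : ℝ => 1 + e * (η i : ℝ) := by fun_prop
        have h2 : ∀ᶠ e in 𝓝 (0 : ℝ), 0 < 1 + e * (η i : ℝ) := by
          refine (h1.tendsto 0).eventually (lt_mem_nhds ?_)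
          simp
        exact h2.filter_mono nhdsWithin_le_nhds
      have hev2 : ∀ᶠ e in 𝓝[>] (0 : ℝ), ∀ Δ ∈ 𝒱, ∀ v ∈ Δ,
          (fun j => (dd Δ v j : ℝ)) ⬝ᵥ (fun j => 1 + e * (η j : ℝ)) ≠ 0 := by
        rw [Finset.eventually_all]
        intro Δ hΔ
        rw [Finset.eventually_all]
        intro v hv
        have h3 : ∀ e : ℝ, (fun j => (dd Δ v j : ℝ)) ⬝ᵥ (fun j => 1 + e * (η j : ℝ)) =
            (E Δ v : ℝ) + e * t Δ v := by
          intro e
          rw [hx e Δ hΔ v, if_pos hv]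
        simp only [h3]
        by_cases hE' : E Δ v = 0
        · filter_upwards [self_mem_nhdsWithin] with e he
          have he' : (0 : ℝ) < e := he
          rw [hE', Rat.cast_zero, zero_add]
          exact mul_ne_zero he'.ne' (by exact_mod_cast ht Δ hΔ v hv)
        · have h1 : Continuous fun e : ℝ => (E Δ v : ℝ) + e * t Δ v := by fun_prop
          have h2 : ∀ᶠ e in 𝓝 (0 : ℝ), (E Δ v : ℝ) + e * t Δ v ≠ 0 := by
            refine h1.continuousAt.eventually_ne ?_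
            simpa using hE'
          exact h2.filter_mono nhdsWithin_le_nhds
      filter_upwards [hev1, hev2] with e h1 h2
      exact ZI_eq_ZZ hn hV hV0 hT D hD dd ε₁ hε₁ hpoly hone s hs _ h1 h2
        (fun Δ v => (E Δ v : ℝ) + e * t Δ v) (hx e)
  · obtain ⟨Δ, hΔ, rfl⟩ := Finset.mem_image.1 he
    exact hpos Δ hΔ
  · rintro ⟨k, hk⟩
    obtain ⟨Δ₀, hΔ₀, rfl⟩ := Finset.mem_image.1 he
    set σ : Finset ι := Finset.univ.filter fun v => E Δ₀ v ≠ 0 with hσdef
    have hσ : ∀ v, v ∈ σ ↔ E Δ₀ v ≠ 0 := fun v => by rw [hσdef]; simp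
    have h1 : ∃ P : MvPolynomial ι ℚ,
        lamQ (qv V) 𝒱 t σ (gpoly (fun F => (nvol (ex V F) : ℚ) ^ 2) (E Δ₀) * P) ≠ 0 := by
      by_contra hcon
      push Not at hcon
      exact hk (hQ _ he σ hσ hcon k)
    obtain ⟨P, hP⟩ := h1
    refine root_c hT hc hyp b hb (fun Δ v => ((t Δ v : ℚ) : ℂ)) (fun j => ((η j : ℚ) : ℂ))
      (fun Δ hΔ v hv => by simp only [ht0 Δ hΔ v hv, Rat.cast_zero])
      (fun Δ hΔ v hv => by
        simp only [ne_eq, Rat.cast_eq_zero]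
        exact ht Δ hΔ v hv)
      (fun Δ hΔ a => by
        have h2 := htη Δ hΔ a
        have h3 := congrArg (fun q : ℚ => (q : ℂ)) h2
        push_cast at h3
        exact h3) (E Δ₀) (hE Δ₀ hΔ₀) (hpos Δ₀ hΔ₀) σ hσ
      (fun F => (nvol (ex V F) : ℂ) ^ 2) ?_ (MvPolynomial.map (algebraMap ℚ ℂ) P) ?_
    · intro j F v _ hv hF
      have h2 : nvol (ex V (insert v F)) = nvol (ex V F) := by
        unfold ex
        rw [Finset.image_insert]
        refine nvol_apex _ _ j hv fun u hu => ?_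
        obtain ⟨u', hu', rfl⟩ := Finset.mem_image.1 hu
        exact hF u' hu'
      simp only [h2]
    · have h3 : (∑ F : Finset ι, (-1) ^ F.card * MvPolynomial.C ((nvol (ex V F) : ℂ) ^ 2) *
          ∏ i ∈ F, (MvPolynomial.C ((E Δ₀ i : ℚ) : ℂ) + MvPolynomial.X i)) =
          MvPolynomial.map (algebraMap ℚ ℂ)
            (gpoly (fun F => (nvol (ex V F) : ℚ) ^ 2) (E Δ₀)) := by
        unfold gpoly
        simp only [map_sum, map_mul, map_pow, map_neg, map_one, map_prod, map_add,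
          MvPolynomial.map_C, MvPolynomial.map_X, eq_ratCast, Rat.cast_pow, Rat.cast_natCast,
          map_natCast]
      rw [h3, ← map_mul, lamD_cast]
      exact_mod_cast hP

end Pool.Agent.helper61.DL
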