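import Mathlib
import Pool.Agent.helper14.Newton.Defs
import Pool.Agent.helper14.NS.Bridge

set_option autoImplicit false

/-! `b(-1) = 0` if `f(0) = 0`. -/

namespace Pool.Agent.helper61.DL

open Finset Filter Topology MvPolynomial Pool.Agent.helper14.Newton

lemma foldr_nabla {n : ℕ} (f : (Fin n → ℂ) → ℂ) (hf : Continuous f) (w : List (Fin n)) :
    ∀ z, f z ≠ 0 → w.foldr (nabla f (-1)) f z = if w = [] then f z else 0 := by
  induction w with
  | nil => intro z _; simp
  | cons i w ih =>
    intro z hz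
    rw [if_neg (List.cons_ne_nil _ _), List.foldr_cons]
    unfold nabla
    by_cases hw : w = []
    · subst hw
      simp only [List.foldr_nil]
      field_simp
      ring
    · have h1 : (w.foldr (nabla f (-1)) f) =ᶠ[𝓝 z] fun _ => 0 := by
        filter_upwards [hf.continuousAt.eventually_ne hz] with y hy
        rw [ih y hy, if_neg hw]
      have h2 := h1.eq_of_nhds
      have h3 : fderiv ℂ (w.foldr (nabla f (-1)) f) z = 0 := by
        rw [h1.fderiv_eq]
        simp
      unfold nabla at h2 h3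
      rw [h3, h2]
      simp

theorem eval_neg_one {n : ℕ} (f : MvPolynomial (Fin n) ℂ) (hf : f ≠ 0) (h0 : coeff 0 f = 0)
    (b : Polynomial ℂ) (hb : IsBernstein (fun z => eval z f) b) : b.eval (-1) = 0 := by
  classical
  obtain ⟨T, a, ha, hev⟩ := hb
  have hcont : Continuous (fun z : Fin n → ℂ => eval z f) := MvPolynomial.continuous_eval f
  have hfreq : ∃ᶠ z in 𝓝 (0 : Fin n → ℂ), eval z f ≠ 0 := by
    intro hcon
    apply hf
    simp only [not_not] at hcon
    ext m
    rw [coeff_zero]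
    refine Pool.Agent.helper14.NS.mvpoly_bigO f (m.degree + 1) ?_ m (Nat.lt_succ_self _)
    refine Asymptotics.IsBigO.of_bound 0 ?_
    filter_upwards [hcon] with z hz
    rw [hz]
    simp
  have hne : (𝓝 (0 : Fin n → ℂ) ⊓ 𝓟 {z | eval z f ≠ 0}).NeBot := by
    rw [← frequently_mem_iff_neBot]
    exact hfreq
  have hlim : Tendsto (fun z : Fin n → ℂ => ∑ t ∈ T, a t z * (-1) ^ t.2 *
      (if t.1 = [] then eval z f else 0)) (𝓝 (0 : Fin n → ℂ) ⊓ 𝓟 {z | eval z f ≠ 0}) (𝓝 0) := by
    have h1 : Tendsto (fun z : Fin n → ℂ => ∑ t ∈ T, a t z * (-1) ^ t.2 *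
      (if t.1 = [] then eval z f else 0)) (𝓝 (0 : Fin n → ℂ))
        (𝓝 (∑ t ∈ T, a t 0 * (-1) ^ t.2 * 0)) := by
      refine tendsto_finset_sum T fun t ht => ?_
      refine Tendsto.mul (((ha t ht).continuousAt.tendsto).mul_const _) ?_
      by_cases hw : t.1 = []
      · simp only [if_pos hw]
        have h2 := hcont.tendsto 0
        have h3 : eval (0 : Fin n → ℂ) f = 0 := by
          rw [eval_zero, constantCoeff_eq]
          exact h0
        rwa [h3] at h2
      · simp only [if_neg hw]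
        exact tendsto_const_nhds
    simp only [mul_zero, Finset.sum_const_zero] at h1
    exact h1.mono_left inf_le_left
  have hlim2 : Tendsto (fun z : Fin n → ℂ => ∑ t ∈ T, a t z * (-1) ^ t.2 *
      (if t.1 = [] then eval z f else 0)) (𝓝 (0 : Fin n → ℂ) ⊓ 𝓟 {z | eval z f ≠ 0})
      (𝓝 (b.eval (-1))) := by
    refine Tendsto.congr' ?_ tendsto_const_nhds
    have h4 : ∀ᶠ z in 𝓝 (0 : Fin n → ℂ) ⊓ 𝓟 {z | eval z f ≠ 0}, eval z f ≠ 0 := by
      exact mem_inf_of_right (mem_principal_self _)
    filter_upwards [hev.filter_mono inf_le_left, h4] with z hz hz0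
    rw [← hz hz0 (-1)]
    refine Finset.sum_congr rfl fun t _ => ?_
    rw [foldr_nabla _ hcont t.1 z hz0]
  exact tendsto_nhds_unique hlim2 hlim

end Pool.Agent.helper61.DL
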