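import Mathlib

set_option autoImplicit false

/-! Rational functions given by their values on the positive reals. -/

namespace Pool.Agent.helper61.DL

open Finset Polynomial

/-- `z = P / Q` with `Q` nonzero on the positive reals, and `φ` is the function of `z` there -/
def RGood (z : RatFunc ℂ) (φ : ℝ → ℂ) : Prop :=
  ∃ P Q : ℂ[X], (∀ s : ℝ, 0 < s → Q.eval (s : ℂ) ≠ 0) ∧
    z = algebraMap ℂ[X] (RatFunc ℂ) P / algebraMap ℂ[X] (RatFunc ℂ) Q ∧
    ∀ s : ℝ, 0 < s → φ s = P.eval (s : ℂ) / Q.eval (s : ℂ)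

/-- `z` is regular at `a` -/
def RReg (a : ℂ) (z : RatFunc ℂ) : Prop :=
  ∃ P Q : ℂ[X], Q.eval a ≠ 0 ∧ z = algebraMap ℂ[X] (RatFunc ℂ) P / algebraMap ℂ[X] (RatFunc ℂ) Q

lemma aM_ne {Q : ℂ[X]} (h : Q ≠ 0) : algebraMap ℂ[X] (RatFunc ℂ) Q ≠ 0 := by
  rw [Ne, map_eq_zero_iff _ (RatFunc.algebraMap_injective ℂ)]
  exact h

lemma ne_of_eval {Q : ℂ[X]} {a : ℂ} (h : Q.eval a ≠ 0) : Q ≠ 0 := by
  rintro rfl
  simp at h

lemma RGood.ne {Q : ℂ[X]} (h : ∀ s : ℝ, 0 < s → Q.eval (s : ℂ) ≠ 0) : Q ≠ 0 :=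
  ne_of_eval (h 1 one_pos)

lemma RGood.congr {z : RatFunc ℂ} {φ ψ : ℝ → ℂ} (h : RGood z φ) (h' : ∀ s, 0 < s → φ s = ψ s) :
    RGood z ψ := by
  obtain ⟨P, Q, h1, h2, h3⟩ := h
  exact ⟨P, Q, h1, h2, fun s hs => (h' s hs) ▸ h3 s hs⟩

lemma RGood.poly (P : ℂ[X]) : RGood (algebraMap ℂ[X] (RatFunc ℂ) P) (fun s => P.eval (s : ℂ)) :=
  ⟨P, 1, by simp, by simp, by simp⟩

lemma RGood.const (c : ℂ) : RGood (RatFunc.C c) (fun _ => c) := by
  have h := RGood.poly (C c)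
  rw [RatFunc.algebraMap_C] at h
  exact h.congr (by simp)

lemma RGood.one : RGood 1 (fun _ => 1) := by
  have h := RGood.const 1
  rwa [map_one] at h

lemma RGood.zero : RGood 0 (fun _ => 0) := by
  have h := RGood.const 0
  rwa [map_zero] at h

lemma RGood.natCast (k : ℕ) : RGood (k : RatFunc ℂ) (fun _ => (k : ℂ)) := by
  have h := RGood.const (k : ℂ)
  rwa [map_natCast] at h

lemma RGood.X : RGood RatFunc.X (fun s => (s : ℂ)) := by
  have h := RGood.poly Polynomial.X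
  rw [RatFunc.algebraMap_X] at h
  exact h.congr (by simp)

lemma RGood.add {z w : RatFunc ℂ} {φ ψ : ℝ → ℂ} (h : RGood z φ) (h' : RGood w ψ) :
    RGood (z + w) (fun s => φ s + ψ s) := by
  obtain ⟨P, Q, h1, h2, h3⟩ := h
  obtain ⟨P', Q', h1', h2', h3'⟩ := h'
  refine ⟨P * Q' + Q * P', Q * Q', fun s hs => ?_, ?_, fun s hs => ?_⟩
  · rw [eval_mul]
    exact mul_ne_zero (h1 s hs) (h1' s hs)
  · rw [h2, h2', div_add_div _ _ (aM_ne (RGood.ne h1)) (aM_ne (RGood.ne h1'))]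
    simp only [map_add, map_mul]
  · simp only []
    rw [h3 s hs, h3' s hs, div_add_div _ _ (h1 s hs) (h1' s hs)]
    simp only [eval_add, eval_mul]

lemma RGood.mul {z w : RatFunc ℂ} {φ ψ : ℝ → ℂ} (h : RGood z φ) (h' : RGood w ψ) :
    RGood (z * w) (fun s => φ s * ψ s) := by
  obtain ⟨P, Q, h1, h2, h3⟩ := h
  obtain ⟨P', Q', h1', h2', h3'⟩ := h'
  refine ⟨P * P', Q * Q', fun s hs => ?_, ?_, fun s hs => ?_⟩
  · rw [eval_mul]
    exact mul_ne_zero (h1 s hs) (h1' s hs)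
  · rw [h2, h2', div_mul_div_comm]
    simp only [map_mul]
  · simp only []
    rw [h3 s hs, h3' s hs, div_mul_div_comm]
    simp only [eval_mul]

lemma RGood.inv {z : RatFunc ℂ} {φ : ℝ → ℂ} (h : RGood z φ) (hne : ∀ s, 0 < s → φ s ≠ 0) :
    RGood z⁻¹ (fun s => (φ s)⁻¹) := by
  obtain ⟨P, Q, h1, h2, h3⟩ := h
  refine ⟨Q, P, fun s hs h0 => hne s hs ?_, ?_, fun s hs => ?_⟩
  · rw [h3 s hs, h0, zero_div]
  · rw [h2, inv_div]
  · simp only []
    rw [h3 s hs, inv_div]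

lemma RGood.div {z w : RatFunc ℂ} {φ ψ : ℝ → ℂ} (h : RGood z φ) (h' : RGood w ψ)
    (hne : ∀ s, 0 < s → ψ s ≠ 0) : RGood (z / w) (fun s => φ s / ψ s) := by
  simp only [div_eq_mul_inv]
  exact h.mul (h'.inv hne)

lemma RGood.sub {z w : RatFunc ℂ} {φ ψ : ℝ → ℂ} (h : RGood z φ) (h' : RGood w ψ) :
    RGood (z - w) (fun s => φ s - ψ s) := by
  have h1 := h.add ((RGood.const (-1)).mul h')
  rw [map_neg, map_one, neg_one_mul, ← sub_eq_add_neg] at h1
  exact h1.congr fun s _ => by ring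

lemma RGood.pow {z : RatFunc ℂ} {φ : ℝ → ℂ} (h : RGood z φ) (k : ℕ) :
    RGood (z ^ k) (fun s => φ s ^ k) := by
  induction k with
  | zero => simpa using RGood.one
  | succ k ih => simpa only [pow_succ] using ih.mul h

lemma RGood.sum {α : Type} (S : Finset α) (z : α → RatFunc ℂ) (φ : α → ℝ → ℂ)
    (h : ∀ a ∈ S, RGood (z a) (φ a)) : RGood (∑ a ∈ S, z a) (fun s => ∑ a ∈ S, φ a s) := by
  classical
  induction S using Finset.induction_on with
  | empty => simpa using RGood.zero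
  | insert a S ha ih =>
    simp only [Finset.sum_insert ha]
    exact (h a (mem_insert_self _ _)).add (ih fun b hb => h b (mem_insert_of_mem hb))

lemma RGood.prod {α : Type} (S : Finset α) (z : α → RatFunc ℂ) (φ : α → ℝ → ℂ)
    (h : ∀ a ∈ S, RGood (z a) (φ a)) : RGood (∏ a ∈ S, z a) (fun s => ∏ a ∈ S, φ a s) := by
  classical
  induction S using Finset.induction_on with
  | empty => simpa using RGood.one
  | insert a S ha ih =>
    simp only [Finset.prod_insert ha]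
    exact (h a (mem_insert_self _ _)).mul (ih fun b hb => h b (mem_insert_of_mem hb))

lemma RGood.ext {z w : RatFunc ℂ} {φ ψ : ℝ → ℂ} (h : RGood z φ) (h' : RGood w ψ)
    (heq : ∀ s, 0 < s → φ s = ψ s) : z = w := by
  obtain ⟨P, Q, h1, h2, h3⟩ := h
  obtain ⟨P', Q', h1', h2', h3'⟩ := h'
  rw [h2, h2', div_eq_div_iff (aM_ne (RGood.ne h1)) (aM_ne (RGood.ne h1')), ← map_mul, ← map_mul]
  congr 1
  refine Polynomial.eq_of_infinite_eval_eq _ _ ?_
  have hinf : Set.Infinite ((fun s : ℝ => (s : ℂ)) '' Set.Ioi 0) :=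
    (Set.Ioi_infinite (0 : ℝ)).image fun _ _ _ _ h => Complex.ofReal_injective h
  refine hinf.mono ?_
  rintro _ ⟨s, hs, rfl⟩
  have hs' : (0 : ℝ) < s := hs
  have h4 := heq s hs'
  rw [h3 s hs', h3' s hs', div_eq_div_iff (h1 s hs') (h1' s hs')] at h4
  simpa only [Set.mem_setOf_eq, eval_mul] using h4

lemma RReg.poly (a : ℂ) (P : ℂ[X]) : RReg a (algebraMap ℂ[X] (RatFunc ℂ) P) :=
  ⟨P, 1, by simp, by simp⟩

lemma RReg.const (a c : ℂ) : RReg a (RatFunc.C c) := by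
  rw [← RatFunc.algebraMap_C]
  exact RReg.poly a _

lemma RReg.X (a : ℂ) : RReg a RatFunc.X := by
  rw [← RatFunc.algebraMap_X]
  exact RReg.poly a _

lemma RReg.zero (a : ℂ) : RReg a 0 := by
  have := RReg.const a 0
  rwa [map_zero] at this

lemma RReg.add {a : ℂ} {z w : RatFunc ℂ} (h : RReg a z) (h' : RReg a w) : RReg a (z + w) := by
  obtain ⟨P, Q, h1, h2⟩ := h
  obtain ⟨P', Q', h1', h2'⟩ := h'
  refine ⟨P * Q' + Q * P', Q * Q', ?_, ?_⟩
  · rw [eval_mul]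
    exact mul_ne_zero h1 h1'
  · rw [h2, h2', div_add_div _ _ (aM_ne (ne_of_eval h1)) (aM_ne (ne_of_eval h1'))]
    simp only [map_add, map_mul]

lemma RReg.mul {a : ℂ} {z w : RatFunc ℂ} (h : RReg a z) (h' : RReg a w) : RReg a (z * w) := by
  obtain ⟨P, Q, h1, h2⟩ := h
  obtain ⟨P', Q', h1', h2'⟩ := h'
  refine ⟨P * P', Q * Q', ?_, ?_⟩
  · rw [eval_mul]
    exact mul_ne_zero h1 h1'
  · rw [h2, h2', div_mul_div_comm]
    simp only [map_mul]

lemma RReg.sub {a : ℂ} {z w : RatFunc ℂ} (h : RReg a z) (h' : RReg a w) : RReg a (z - w) := by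
  have h1 := h.add ((RReg.const a (-1)).mul h')
  rwa [map_neg, map_one, neg_one_mul, ← sub_eq_add_neg] at h1

lemma RReg.pow {a : ℂ} {z : RatFunc ℂ} (h : RReg a z) (k : ℕ) : RReg a (z ^ k) := by
  induction k with
  | zero => simpa using RReg.const a 1
  | succ k ih => simpa only [pow_succ] using ih.mul h

lemma RReg.sum {a : ℂ} {α : Type} (S : Finset α) (z : α → RatFunc ℂ)
    (h : ∀ x ∈ S, RReg a (z x)) : RReg a (∑ x ∈ S, z x) := by
  classical
  induction S using Finset.induction_on with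
  | empty => simpa using RReg.zero a
  | insert x S hx ih =>
    rw [Finset.sum_insert hx]
    exact (h x (mem_insert_self _ _)).add (ih fun b hb => h b (mem_insert_of_mem hb))

/-- `1 / (X + c) ^ k` is regular at `a ≠ -c` -/
lemma RReg.inv_lin {a c : ℂ} (h : a + c ≠ 0) (k : ℕ) :
    RReg a (((RatFunc.X + RatFunc.C c) ^ k)⁻¹) := by
  refine ⟨1, (Polynomial.X + C c) ^ k, ?_, ?_⟩
  · simp only [eval_pow, eval_add, eval_X, eval_C]
    exact pow_ne_zero _ h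
  · rw [map_one, one_div, map_pow, map_add, RatFunc.algebraMap_X, RatFunc.algebraMap_C]

lemma RReg.not_pole {a : ℂ} {z : RatFunc ℂ} (h : RReg a z) : ¬ z.denom.IsRoot a := by
  obtain ⟨P, Q, h1, h2⟩ := h
  intro hr
  have h3 : z.denom ∣ Q := by
    rw [h2]
    exact RatFunc.denom_div_dvd P Q
  obtain ⟨R, hR⟩ := h3
  apply h1
  rw [hR, eval_mul]
  have h4 : eval a z.denom = 0 := hr
  rw [h4, zero_mul]

end Pool.Agent.helper61.DL
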