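import Mathlib
import Pool.Agent.helper61.DL.Main2
import Pool.Agent.helper61.DL.Rat
import Pool.Agent.helper61.DL.MinusOne

set_option autoImplicit false
set_option linter.unusedSectionVars false

/-! Every pole of the Denef-Loeser function is a root of the Bernstein-Sato polynomial. -/

namespace Pool.Agent.helper61.DL

open Finset Filter Topology Pool.Agent.helper14.NS
open Pool.Agent.helper67.ND

section Trans

variable {n : ℕ} (f : MvPolynomial (Fin n) ℂ)

/-- the exponents of `f` as a family -/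
abbrev SV : {v // v ∈ f.support} → Fin n →₀ ℕ := Subtype.val

lemma SV_inj : Function.Injective (SV f) := Subtype.val_injective

lemma mem_ex (G : Finset {v // v ∈ f.support}) (v : {v // v ∈ f.support}) :
    SV f v ∈ ex (SV f) G ↔ v ∈ G := by
  unfold ex
  rw [Finset.mem_image]
  constructor
  · rintro ⟨u, hu, h⟩
    rwa [← SV_inj f h]
  · intro h
    exact ⟨v, h, rfl⟩

lemma ex_inj : Function.Injective (ex (SV f)) := by
  intro G G' h
  ext v
  rw [← mem_ex f, ← mem_ex f, h]

lemma wt_eq (w : Fin n → ℕ) (v : Fin n →₀ ℕ) :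
    Pool.Agent.helper14.Newton.wt w v = ∑ j, w j * v j := rfl

lemma faces_eq : faces f = (facesI (SV f)).image (ex (SV f)) := by
  classical
  ext G
  unfold faces facesI
  rw [Finset.mem_filter, Finset.mem_image, Finset.mem_powerset]
  constructor
  · rintro ⟨hG, w, hw, rfl⟩
    refine ⟨Finset.univ.filter fun i => ∀ i', ∑ j, w j * SV f i j ≤ ∑ j, w j * SV f i' j, ?_, ?_⟩
    · rw [Finset.mem_filter]
      exact ⟨Finset.mem_univ _, w, hw, fun i => by simp⟩
    · ext v
      unfold ex Pool.Agent.helper14.Newton.face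
      rw [Finset.mem_image, Finset.mem_filter]
      constructor
      · rintro ⟨u, hu, rfl⟩
        refine ⟨u.2, fun u' hu' => ?_⟩
        have h1 := (Finset.mem_filter.1 hu).2 ⟨u', hu'⟩
        exact h1
      · rintro ⟨hv, h⟩
        refine ⟨⟨v, hv⟩, ?_, rfl⟩
        rw [Finset.mem_filter]
        exact ⟨Finset.mem_univ _, fun i' => h _ i'.2⟩
  · rintro ⟨G', hG', rfl⟩
    rw [Finset.mem_filter] at hG'
    obtain ⟨-, w, hw, hG'⟩ := hG'
    refine ⟨fun v hv => ?_, w, hw, ?_⟩
    · unfold ex at hv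
      obtain ⟨u, -, rfl⟩ := Finset.mem_image.1 hv
      exact u.2
    · ext v
      unfold ex Pool.Agent.helper14.Newton.face
      rw [Finset.mem_image, Finset.mem_filter]
      constructor
      · rintro ⟨hv, h⟩
        refine ⟨⟨v, hv⟩, ?_, rfl⟩
        rw [hG']
        exact fun i' => h _ i'.2
      · rintro ⟨u, hu, rfl⟩
        refine ⟨u.2, fun u' hu' => ?_⟩
        exact (hG' u).1 hu ⟨u', hu'⟩

lemma ordI_eq (a : Fin n → ℕ) : ordI (SV f) a = ordW f a := by
  unfold ordI ordW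
  congr 1
  ext N
  constructor
  · rintro ⟨v, hv⟩
    exact ⟨v.1, v.2, hv⟩
  · rintro ⟨v, hv, h⟩
    exact ⟨⟨v, hv⟩, h⟩

lemma subI_of (G : Finset {v // v ∈ f.support}) (S : Finset (Finset (Fin n → ℕ)))
    (h : IsSubdivision f (ex (SV f) G) S) : SubI (SV f) G S := by
  refine ⟨h.card, fun δ hδ a ha v hv u => ?_, h.indep, fun k hk hk' => ?_, h.disj⟩
  · have h1 := h.face δ hδ a ha ((mem_ex f G v).2 hv)
    unfold Pool.Agent.helper14.Newton.face at h1
    exact (Finset.mem_filter.1 h1).2 _ u.2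
  · refine h.cover k hk fun v hv u hu => ?_
    unfold ex at hv
    obtain ⟨v', hv', rfl⟩ := Finset.mem_image.1 hv
    exact hk' v' hv' ⟨u, hu⟩

lemma jay_good (G : Finset {v // v ∈ f.support}) (S : Finset (Finset (Fin n → ℕ)))
    (h : IsSubdivision f (ex (SV f) G) S) :
    RGood (jay f S) (fun s => ((jayI (SV f) S s (fun _ => 1) : ℝ) : ℂ)) := by
  have hpos : ∀ δ ∈ S, ∀ a ∈ δ, ∀ s : ℝ, 0 < s → 0 < (ordI (SV f) a : ℝ) * s + ∑ i, (a i : ℝ) := by
    intro δ hδ a ha s hs
    obtain ⟨j, hj⟩ : ∃ j, a j ≠ 0 := by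
      by_contra hcon
      push Not at hcon
      refine (h.indep δ hδ).ne_zero ⟨a, ha⟩ ?_
      funext i
      simp [hcon i]
    have h1 : 0 < ∑ i, (a i : ℝ) := by
      refine Finset.sum_pos' (fun i _ => by positivity) ⟨j, Finset.mem_univ _, ?_⟩
      exact_mod_cast Nat.pos_of_ne_zero hj
    have h2 : 0 ≤ (ordI (SV f) a : ℝ) * s := by positivity
    linarith
  have h1 : RGood (jay f S) (fun s => ∑ δ ∈ S,
      ((mult ((fun (a : Fin n → ℕ) (i : Fin n) => (a i : ℤ)) '' (δ : Set (Fin n → ℕ))) : ℕ) : ℂ) /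
      ∏ a ∈ δ, ((ordW f a : ℂ) * (s : ℂ) + ((∑ i, a i : ℕ) : ℂ))) := by
    unfold jay
    refine RGood.sum S _ _ fun δ hδ => ?_
    refine (RGood.natCast _).div (RGood.prod δ _ _ fun a ha =>
      ((RGood.natCast _).mul RGood.X).add (RGood.natCast _)) fun s hs => ?_
    refine Finset.prod_ne_zero_iff.2 fun a ha => ?_
    have h2 := (hpos δ hδ a ha s hs).ne'
    rw [ordI_eq] at h2
    exact_mod_cast h2
  refine h1.congr fun s hs => ?_
  unfold jayI
  push_cast
  refine Finset.sum_congr rfl fun δ _ => ?_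
  congr 1
  refine Finset.prod_congr rfl fun a _ => ?_
  rw [ordI_eq]
  simp

lemma svol_point (G : Finset (Fin n →₀ ℕ)) (hne : G.Nonempty) (h : fdim G = 0) : svol G = 1 := by
  classical
  obtain ⟨v, hv⟩ := hne
  have h1 : vectorSpan ℝ (rv '' (G : Set (Fin n →₀ ℕ))) = ⊥ := by
    unfold fdim at h
    exact Submodule.finrank_eq_zero.1 h
  have h2 : rv '' (G : Set (Fin n →₀ ℕ)) = {rv v} := by
    ext y
    rw [Set.mem_singleton_iff]
    constructor
    · intro hy
      have h3 := vsub_mem_vectorSpan ℝ hy (Set.mem_image_of_mem rv (Finset.mem_coe.2 hv))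
      rw [h1, Submodule.mem_bot, vsub_eq_sub, sub_eq_zero] at h3
      exact h3
    · rintro rfl
      exact Set.mem_image_of_mem rv (Finset.mem_coe.2 hv)
  have h3 : ∀ N : ℕ, npts G N = 1 := by
    intro N
    unfold npts
    rw [h2, convexHull_singleton]
    have : Unique {x : Fin n → ℤ // ∃ y ∈ ({rv v} : Set (Fin n → ℝ)), ∀ i, (x i : ℝ) = N * y i} :=
      { default := ⟨fun i => N * (v i : ℤ), rv v, rfl, fun i => by simp [rv]⟩
        uniq := by
          rintro ⟨x, y, hy, hx⟩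
          rw [Set.mem_singleton_iff] at hy
          subst hy
          apply Subtype.ext
          funext i
          have := hx i
          simp only [rv] at this
          have h4 : ((x i : ℤ) : ℝ) = ((N * (v i : ℤ) : ℤ) : ℝ) := by
            rw [this]
            push_cast
            rfl
          exact_mod_cast h4 }
    exact Nat.card_unique
  unfold svol
  simp only [h, h3]
  refine Tendsto.limUnder_eq ?_
  simp

lemma facesI_nonempty (hne : f.support.Nonempty) (G : Finset {v // v ∈ f.support})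
    (hG : G ∈ facesI (SV f)) : G.Nonempty := by
  classical
  unfold facesI at hG
  rw [Finset.mem_filter] at hG
  obtain ⟨-, w, hw, hG⟩ := hG
  obtain ⟨v, hv⟩ := hne
  obtain ⟨u, -, hu⟩ := Finset.exists_min_image (Finset.univ : Finset {v // v ∈ f.support})
    (fun i => ∑ j, w j * SV f i j) ⟨⟨v, hv⟩, Finset.mem_univ _⟩
  exact ⟨u, (hG u).2 fun i' => hu i' (Finset.mem_univ _)⟩

lemma ZDL_good (hne : f.support.Nonempty)
    (D : Finset (Fin n →₀ ℕ) → Finset (Finset (Fin n → ℕ)))
    (hD : ∀ G ∈ faces f, IsSubdivision f G (D G)) :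
    RGood (ZDL f D) (fun s => ((ZI (SV f) (fun G => D (ex (SV f) G)) s (fun _ => 1) : ℝ) : ℂ)) := by
  classical
  have h1 : ZDL f D = ∑ G ∈ facesI (SV f), (if fdim (ex (SV f) G) = 0 then 1 else
      RatFunc.C ((-1) ^ fdim (ex (SV f) G) * (svol (ex (SV f) G) : ℂ)) *
        (RatFunc.X / (RatFunc.X + 1))) * jay f (D (ex (SV f) G)) := by
    unfold ZDL
    rw [faces_eq, Finset.sum_image fun _ _ _ _ h => ex_inj f h]
  rw [h1]
  refine (RGood.sum (facesI (SV f)) _ (fun G s => (if fdim (ex (SV f) G) = 0 then 1 else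
      ((-1) ^ fdim (ex (SV f) G) * (svol (ex (SV f) G) : ℂ)) * ((s : ℂ) / ((s : ℂ) + 1))) *
        ((jayI (SV f) (D (ex (SV f) G)) s (fun _ => 1) : ℝ) : ℂ)) fun G hG => ?_).congr
    fun s hs => ?_
  · refine RGood.mul ?_ (jay_good f G _ (hD _ ?_))
    · by_cases h : fdim (ex (SV f) G) = 0
      · simp only [if_pos h]
        exact RGood.one
      · simp only [if_neg h]
        refine (RGood.const _).mul (RGood.X.div (RGood.X.add RGood.one) fun s hs => ?_)
        have : (s : ℝ) + 1 ≠ 0 := by positivity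
        exact_mod_cast this
    · rw [faces_eq]
      exact Finset.mem_image_of_mem _ hG
  · unfold ZI
    rw [Complex.ofReal_sum]
    refine Finset.sum_congr rfl fun G hG => ?_
    rw [Complex.ofReal_mul]
    congr 1
    unfold cf
    by_cases h : fdim (ex (SV f) G) = 0
    · rw [if_pos h, if_pos h, svol_point _ ?_ h]
      · simp
      · obtain ⟨v, hv⟩ := facesI_nonempty f hne G hG
        exact ⟨_, (mem_ex f G v).2 hv⟩
    · rw [if_neg h, if_neg h]
      push_cast
      ring

end Trans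

/-- **Main theorem**, in terms of a triangulation. -/
theorem pole_root {n : ℕ} (hn : 0 < n) (f : MvPolynomial (Fin n) ℂ) (hf : f ≠ 0)
    (h0 : MvPolynomial.coeff 0 f = 0) {om : {v // v ∈ f.support} → ℤ} {ε : ℚ}
    (hT : Tri (SV f) om ε)
    (hyp : (∀ i, om i = 0) ∨
      AlgebraicIndependent ℚ (fun v : {v // v ∈ f.support} => MvPolynomial.coeff v.1 f))
    (D : Finset (Fin n →₀ ℕ) → Finset (Finset (Fin n → ℕ)))
    (hD : ∀ G ∈ faces f, IsSubdivision f G (D G)) (s₀ : ℂ) (hs : (ZDL f D).denom.IsRoot s₀)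
    (b : Polynomial ℂ)
    (hb : Pool.Agent.helper14.Newton.IsBernstein (fun z => MvPolynomial.eval z f) b) :
    b.eval s₀ = 0 := by
  classical
  by_cases hs1 : s₀ = -1
  · rw [hs1]
    exact eval_neg_one f hf h0 b hb
  by_contra hbs
  have hne : f.support.Nonempty := by
    rw [Finset.nonempty_iff_ne_empty, Ne, MvPolynomial.support_eq_empty]
    exact hf
  have hV0 : ∀ i, SV f i ≠ 0 := by
    rintro ⟨v, hv⟩ h
    simp only [SV] at h
    subst h
    exact (MvPolynomial.mem_support_iff.1 hv) h0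
  have hfs : f = ∑ i : {v // v ∈ f.support}, MvPolynomial.monomial (SV f i)
      (MvPolynomial.coeff i.1 f) := by
    conv_lhs => rw [f.as_sum]
    rw [← Finset.sum_coe_sort f.support]
  have hTB : TruncB (∑ i : {v // v ∈ f.support}, MvPolynomial.monomial (SV f i)
      (MvPolynomial.coeff i.1 f)) b := by
    rw [← hfs]
    exact truncB_of_isBernstein f b hb
  obtain ⟨K, I, Q, h1, h2⟩ := ZI_form hn (SV_inj f) hV0 hT
    (c := fun v : {v // v ∈ f.support} => MvPolynomial.coeff v.1 f)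
    (fun i => MvPolynomial.mem_support_iff.1 i.2) hyp b hTB (fun G => D (ex (SV f) G))
    (fun G hG => subI_of f G _ (hD _ (by
      rw [faces_eq]
      exact Finset.mem_image_of_mem _ hG)))
  set R : RatFunc ℂ := RatFunc.C (K : ℂ) * ((RatFunc.X + RatFunc.C 1) ^ 1)⁻¹ -
    (RatFunc.X * ((RatFunc.X + RatFunc.C 1) ^ 1)⁻¹) * ∑ e ∈ I, ∑ k ∈ Finset.range (n + 1),
      RatFunc.C ((-1) ^ k * (Q e k : ℂ)) *
        ((RatFunc.X + RatFunc.C ((∑ v, e v : ℚ) : ℂ)) ^ (k + 1))⁻¹ with hR
  have hlin : ∀ a : ℚ, 0 < a → ∀ k : ℕ, RGood (((RatFunc.X + RatFunc.C (a : ℂ)) ^ k)⁻¹)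
      (fun s => (((s : ℂ) + (a : ℂ)) ^ k)⁻¹) := by
    intro a ha k
    refine ((RGood.X.add (RGood.const _)).pow k).inv fun s hs => ?_
    have h3 : (s : ℝ) + (a : ℝ) ≠ 0 := by
      have : (0 : ℝ) < a := by exact_mod_cast ha
      positivity
    have h4 : (s : ℂ) + (a : ℂ) ≠ 0 := by exact_mod_cast h3
    exact pow_ne_zero _ h4
  have h11 := hlin 1 one_pos 1
  rw [Rat.cast_one] at h11
  have hRgood : RGood R (fun s => (K : ℂ) * (((s : ℂ) + 1) ^ 1)⁻¹ -
      ((s : ℂ) * (((s : ℂ) + 1) ^ 1)⁻¹) * ∑ e ∈ I, ∑ k ∈ Finset.range (n + 1),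
        ((-1) ^ k * (Q e k : ℂ)) * (((s : ℂ) + ((∑ v, e v : ℚ) : ℂ)) ^ (k + 1))⁻¹) := by
    refine ((RGood.const _).mul h11).sub ((RGood.X.mul h11).mul
      (RGood.sum I _ _ fun e he => RGood.sum _ _ _ fun k _ => (RGood.const _).mul
        (hlin _ (h2 e he).1 (k + 1))))
  have hZR : ZDL f D = R := by
    refine (ZDL_good f hne D hD).ext hRgood fun s hs => ?_
    rw [h1 s hs]
    push_cast
    simp only [pow_one, div_eq_mul_inv]
  have hreg : RReg s₀ R := by
    have hs1' : s₀ + 1 ≠ 0 := by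
      intro h
      exact hs1 (eq_neg_of_add_eq_zero_left h)
    refine ((RReg.const _ _).mul (RReg.inv_lin hs1' 1)).sub
      (((RReg.X _).mul (RReg.inv_lin hs1' 1)).mul (RReg.sum I _ fun e he =>
        RReg.sum _ _ fun k _ => ?_))
    by_cases hk : Q e k = 0
    · rw [hk, Rat.cast_zero, mul_zero, map_zero, zero_mul]
      exact RReg.zero _
    · refine (RReg.const _ _).mul (RReg.inv_lin ?_ _)
      intro h
      apply hbs
      have h5 := (h2 e he).2 ⟨k, hk⟩
      rwa [← eq_neg_of_add_eq_zero_left h] at h5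
  rw [hZR] at hs
  exact hreg.not_pole hs

end Pool.Agent.helper61.DL
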