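import Mathlib
import Pool.Agent.helper61.DL.Final
import Pool.Agent.helper14.NS.ThmA
import Pool.Agent.helper11.NS.Heights
import Pool.Agent.helper40.DL.V

set_option autoImplicit false

/-! Existence of triangulations; the two final theorems. -/

namespace Pool.Agent.helper61.DL

open Finset Filter Topology Pool.Agent.helper14.NS
open Pool.Agent.helper11.NSR (dt)

variable {n : ℕ}

lemma conv_SV (f : MvPolynomial (Fin n) ℂ) (hconv : Pool.Agent.helper14.Newton.Convenient f)
    (h0 : MvPolynomial.coeff 0 f = 0) :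
    ∀ j : Fin n, ∃ i, 0 < SV f i j ∧ ∀ j', j' ≠ j → SV f i j' = 0 := by
  intro j
  obtain ⟨m, hm⟩ := hconv j
  refine ⟨⟨_, MvPolynomial.mem_support_iff.2 hm⟩, ?_, fun j' hj' => ?_⟩
  · simp only [SV, Finsupp.single_eq_same]
    rcases Nat.eq_zero_or_pos m with rfl | h
    · rw [Finsupp.single_zero] at hm
      exact absurd h0 hm
    · exact h
  · simp only [SV]
    exact Finsupp.single_eq_of_ne (by tauto)

/-- simplicial boundary: the trivial heights -/
theorem tri_simplicial (f : MvPolynomial (Fin n) ℂ)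
    (hconv : Pool.Agent.helper14.Newton.Convenient f) (h0 : MvPolynomial.coeff 0 f = 0)
    (hsimp : ∀ w : Fin n → ℕ, (∀ i, 0 < w i) →
      Pool.Agent.helper14.Newton.Indep (Pool.Agent.helper14.Newton.face f w)) :
    Tri (SV f) (fun _ => 0) 1 := by
  classical
  have conv := conv_SV f hconv h0
  have hpos : ∀ k : Fin n → ℚ, (∀ i, 1 ≤ dt k (qv (SV f) i)) → ∀ j, 0 < k j := by
    intro k hk j
    obtain ⟨i, hi, hi'⟩ := conv j
    have h1 := hk i
    rw [dt_qv, Finset.sum_eq_single j] at h1
    · have h2 : (0 : ℚ) < SV f i j := by exact_mod_cast hi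
      by_contra hcon
      push Not at hcon
      nlinarith
    · intro j' _ hj'; rw [hi' j' hj']; simp
    · intro h; exact absurd (Finset.mem_univ _) h
  have simple1 : ∀ k : Fin n → ℚ, (∀ i, 1 ≤ dt k (qv (SV f) i)) →
      LinearIndependent ℚ (fun i : {i // dt k (qv (SV f) i) = 1} => qv (SV f) i) := by
    intro k hk
    by_cases hne : ∃ i₀, dt k (qv (SV f) i₀) = 1
    · obtain ⟨i₀, hi₀⟩ := hne
      obtain ⟨w', d, hd, hw', hwk⟩ := exists_int_weight k (hpos k hk)
      have hwt : ∀ i : {v // v ∈ f.support}, ((∑ j, w' j * SV f i j : ℕ) : ℚ) =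
          d * dt k (qv (SV f) i) := by
        intro i
        rw [dt_qv, Finset.mul_sum]
        push_cast
        exact Finset.sum_congr rfl fun j _ => by rw [hwk]; ring
      have hdq : (0 : ℚ) < d := by exact_mod_cast hd
      have hmf : ∀ i : {v // v ∈ f.support}, dt k (qv (SV f) i) = 1 →
          SV f i ∈ Pool.Agent.helper14.Newton.face f w' := by
        intro i hi
        unfold Pool.Agent.helper14.Newton.face
        rw [Finset.mem_filter]
        refine ⟨i.2, fun u hu => ?_⟩
        have h1 := hwt i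
        have h2 := hwt ⟨u, hu⟩
        rw [hi] at h1
        have h3 : ((∑ j, w' j * SV f i j : ℕ) : ℚ) ≤ ((∑ j, w' j * u j : ℕ) : ℚ) := by
          have h4 : ((∑ j, w' j * u j : ℕ) : ℚ) = d * dt k (qv (SV f) ⟨u, hu⟩) := h2
          rw [h1, h4]
          exact mul_le_mul_of_nonneg_left (hk _) hdq.le
        exact_mod_cast h3
      have h5 := hsimp w' hw'
      unfold Pool.Agent.helper14.Newton.Indep at h5
      exact h5.comp (fun i : {i // dt k (qv (SV f) i) = 1} =>
        (⟨SV f i.1, hmf i.1 i.2⟩ : Pool.Agent.helper14.Newton.face f w'))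
        (fun a b hab => Subtype.ext (SV_inj f (Subtype.mk.inj hab)))
    · have : IsEmpty {i // dt k (qv (SV f) i) = 1} := ⟨fun i => hne ⟨i.1, i.2⟩⟩
      exact linearIndependent_empty_type
  refine ⟨one_pos, conv, ?_, ?_⟩
  · intro k hk
    have hk' : ∀ i, 1 ≤ dt k (qv (SV f) i) := fun i => by simpa using hk i
    exact (simple1 k hk').comp
      (fun i : {i // dt k (qv (SV f) i) = 1 - 1 * ((0 : ℤ) : ℚ)} =>
        (⟨i.1, by simpa using i.2⟩ : {i // dt k (qv (SV f) i) = 1}))
      (fun a b hab => Subtype.ext (Subtype.mk.inj hab))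
  · intro k Δ _ hk hΔ
    simp only [Int.cast_zero, mul_zero, sub_zero] at hk hΔ
    exact ⟨k, hk, fun i hi => (hΔ i).1 hi⟩

/-- generic heights -/
theorem tri_generic (f : MvPolynomial (Fin n) ℂ)
    (hconv : Pool.Agent.helper14.Newton.Convenient f) (h0 : MvPolynomial.coeff 0 f = 0) :
    ∃ (om : {v // v ∈ f.support} → ℤ) (ε : ℚ), Tri (SV f) om ε := by
  classical
  have conv := conv_SV f hconv h0
  have hV0 : ∀ i, SV f i ≠ 0 := by
    rintro ⟨v, hv⟩ h
    simp only [SV] at h
    subst h
    exact (MvPolynomial.mem_support_iff.1 hv) h0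
  have convq : ∀ j, ∃ i, 0 < qv (SV f) i j ∧ ∀ j', j' ≠ j → qv (SV f) i j' = 0 := by
    intro j
    obtain ⟨i, hi, hi'⟩ := conv j
    refine ⟨i, ?_, fun j' hj' => ?_⟩
    · unfold qv; exact_mod_cast hi
    · unfold qv; exact_mod_cast hi' j' hj'
  obtain ⟨k', hk', -, hspan⟩ := Pool.Agent.helper40.DL.exists_span (qv (SV f)) (fun _ => 1) convq
    (fun _ => 1) (fun i => by
      obtain ⟨j, hj⟩ : ∃ j, SV f i j ≠ 0 := by
        by_contra hcon
        push Not at hcon
        exact hV0 i (Finsupp.ext hcon)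
      have h1 : (1 : ℝ) ≤ (qv (SV f) i j : ℝ) := by
        unfold qv
        exact_mod_cast Nat.one_le_iff_ne_zero.2 hj
      rw [Rat.cast_one]
      calc (1 : ℝ) ≤ (qv (SV f) i j : ℝ) := h1
        _ ≤ ∑ l, 1 * (qv (SV f) i l : ℝ) := by
          simp only [one_mul]
          refine Finset.single_le_sum (f := fun l => (qv (SV f) i l : ℝ)) (fun l _ => ?_)
            (Finset.mem_univ j)
          unfold qv
          positivity)
  obtain ⟨q, rfl⟩ := Pool.Agent.helper40.DL.rational_of_span (qv (SV f)) (fun _ => 1) k' hspan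
  have hdt : ∀ i, ((dt q (qv (SV f) i) : ℚ) : ℝ) =
      (fun j => (q j : ℝ)) ⬝ᵥ (fun j => (qv (SV f) i j : ℝ)) := by
    intro i
    unfold dt
    rw [dotProduct]
    push_cast
    rfl
  have hq : ∀ i, 1 ≤ dt q (qv (SV f) i) := by
    intro i
    have h1 := hk' i
    rw [← hdt, Rat.cast_one] at h1
    exact_mod_cast h1
  set A : Set {v // v ∈ f.support} := {i | dt q (qv (SV f) i) = 1} with hA
  have hspan' : Submodule.span ℚ (qv (SV f) '' A) = ⊤ := by
    rw [← hspan]
    congr 2
    ext i
    simp only [hA, Set.mem_setOf_eq, ← hdt, Rat.cast_one]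
    constructor
    · intro h; rw [h]; simp
    · intro h; exact_mod_cast h
  -- a basis among the active exponents
  obtain ⟨κ, a, ha, hκspan, hκ⟩ := exists_linearIndependent' (K := ℚ)
    (fun i : {i // i ∈ A} => qv (SV f) i)
  have hκfin : Finite κ := Finite.of_injective a ha
  have : Fintype κ := Fintype.ofFinite κ
  have htop : Submodule.span ℚ (Set.range ((fun i : {i // i ∈ A} => qv (SV f) i) ∘ a)) = ⊤ := by
    rw [hκspan, ← hspan']
    congr 1
    ext y
    constructor
    · rintro ⟨i, rfl⟩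
      exact ⟨i.1, i.2, rfl⟩
    · rintro ⟨i, hi, rfl⟩
      exact ⟨⟨i, hi⟩, rfl⟩
  have hcardκ : Fintype.card κ = n := by
    have hb := Module.finrank_eq_card_basis (Module.Basis.mk hκ htop.ge)
    rw [Module.finrank_fin_fun] at hb
    exact hb.symm
  set emb : κ ↪ {v // v ∈ f.support} := ⟨fun x => (a x).1, fun x y h => ha (Subtype.ext h)⟩
    with hemb
  set Δ₀ : Finset {v // v ∈ f.support} := Finset.univ.map emb with hΔ₀
  have hcardΔ : Δ₀.card = n := by rw [hΔ₀, Finset.card_map, Finset.card_univ, hcardκ]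
  have hliΔ : LinearIndependent ℚ (fun i : {i // i ∈ Δ₀} => qv (SV f) i) := by
    have hex : ∀ i : {i // i ∈ Δ₀}, ∃ x : κ, (a x).1 = i.1 := by
      intro i
      obtain ⟨x, -, hx⟩ := Finset.mem_map.1 i.2
      exact ⟨x, hx⟩
    choose g hg using hex
    have hginj : Function.Injective g := by
      intro i i' h
      apply Subtype.ext
      rw [← hg i, ← hg i', h]
    have h1 := hκ.comp g hginj
    have h2 : ((fun i : {i // i ∈ A} => qv (SV f) i) ∘ a) ∘ g =
        (fun i : {i // i ∈ Δ₀} => qv (SV f) i) := by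
      funext i
      simp only [Function.comp_apply, hg]
    rw [h2] at h1
    exact h1
  obtain ⟨om, ε, hε, simple, compat, -⟩ :=
    Pool.Agent.helper11.NSR.generic_heights (qv (SV f)) Δ₀ hcardΔ hliΔ q hq (by
      intro i hi
      rw [hΔ₀, Finset.mem_map] at hi
      obtain ⟨x, -, rfl⟩ := hi
      exact (a x).2)
  exact ⟨om, ε, hε, conv, simple, compat⟩

/-- the strong monodromy conjecture for simplicial Newton boundaries, arbitrary coefficients -/
theorem strong_simplicial (hn : 0 < n) (f : MvPolynomial (Fin n) ℂ)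
    (hconv : Pool.Agent.helper14.Newton.Convenient f) (h0 : MvPolynomial.coeff 0 f = 0)
    (hsimp : ∀ w : Fin n → ℕ, (∀ i, 0 < w i) →
      Pool.Agent.helper14.Newton.Indep (Pool.Agent.helper14.Newton.face f w))
    (D : Finset (Fin n →₀ ℕ) → Finset (Finset (Fin n → ℕ)))
    (hD : ∀ G ∈ faces f, IsSubdivision f G (D G)) (s₀ : ℂ) (hs : (ZDL f D).denom.IsRoot s₀)
    (b : Polynomial ℂ)
    (hb : Pool.Agent.helper14.Newton.IsBernstein (fun z => MvPolynomial.eval z f) b) :
    b.eval s₀ = 0 := by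
  have hf : f ≠ 0 := by
    rintro rfl
    obtain ⟨m, hm⟩ := hconv ⟨0, hn⟩
    simp at hm
  exact pole_root hn f hf h0 (tri_simplicial f hconv h0 hsimp) (Or.inl fun _ => rfl) D hD s₀ hs b hb

/-- the strong monodromy conjecture for convenient polynomials with algebraically independent
coefficients -/
theorem strong_generic (hn : 0 < n) (f : MvPolynomial (Fin n) ℂ)
    (hconv : Pool.Agent.helper14.Newton.Convenient f) (h0 : MvPolynomial.coeff 0 f = 0)
    (hind : AlgebraicIndependent ℚ
      (fun v : f.support => MvPolynomial.coeff (v : Fin n →₀ ℕ) f))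
    (D : Finset (Fin n →₀ ℕ) → Finset (Finset (Fin n → ℕ)))
    (hD : ∀ G ∈ faces f, IsSubdivision f G (D G)) (s₀ : ℂ) (hs : (ZDL f D).denom.IsRoot s₀)
    (b : Polynomial ℂ)
    (hb : Pool.Agent.helper14.Newton.IsBernstein (fun z => MvPolynomial.eval z f) b) :
    b.eval s₀ = 0 := by
  have hf : f ≠ 0 := by
    rintro rfl
    obtain ⟨m, hm⟩ := hconv ⟨0, hn⟩
    simp at hm
  obtain ⟨om, ε, hT⟩ := tri_generic f hconv h0
  exact pole_root hn f hf h0 hT (Or.inr hind) D hD s₀ hs b hb

end Pool.Agent.helper61.DL
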